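import Pool.Agent.H172.EG.TopG

/-!
Log places and their multiplicities; normalised coordinates.
-/

set_option autoImplicit false
set_option linter.overlappingInstances false
set_option linter.unusedSectionVars false
set_option maxHeartbeats 1000000

open FF MvPolynomial Pool.Agent.W603.LV Pool.Agent.W602.GT Pool.Agent.W602.Cov
open Pool.Agent.TH756.PR Pool.Agent.TH122.AB Pool.Agent.TH756.PN Pool.Agent.Y169.CH
open Pool.Agent.H172.EG

namespace Pool.Agent.H172.LG

variable {r R : ℕ} {n : Fin r → ℕ} {K : Type} [Field K] [Algebra ℂ K] {N' : ℕ}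
  (e : ((i : Fin r) × Fin (n i)) ≃ Fin (N' + 1))

/-- **The cover.** -/
theorem exists_nc2 (hn : ∀ i, 1 ≤ n i) {x : ∀ i, Fin (n i + 1) → K} (hx0 : ∀ i, x i 0 ≠ 0)
    (hbas : IsTranscendenceBasis ℂ (uu e x)) {F : ∀ i, MvPolynomial (Fin (n i + 1)) ℂ}
    {dF : Fin r → ℕ} (hdF : ∀ i, 1 ≤ dF i) (hs : ∀ i, SmF (F i))
    (hh : ∀ i, (F i).IsHomogeneous (dF i)) {z : Fin R → K}
    {M : Fin R → ℕ} (hM : ∀ j, 0 < M j) {a : Fin R → Fin r → ℕ}
    (hz : ∀ j, z j ^ M j = ∏ i, (aeval (x i) (F i) / x i 0 ^ dF i) ^ a j i)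
    (hdiv : ∀ j i, M j ∣ a j i * dF i)
    (hgen : IntermediateField.adjoin ℂ (Set.range (uu e x) ∪ Set.range z) = ⊤) :
    ∃ Θ : Nc e dF K R, Θ.C.M = M ∧ Θ.C.a = a ∧ ∃ (q : ∀ i, Fin (n i + 1) → ℂ) (c : Fin r → ℂ),
      (∀ i, q i (Fin.last (n i)) = 0) ∧ (∀ i, c i ≠ 0) ∧ (∀ i, Θ.F i = shF (q i) (c i) (F i)) ∧
      (∀ i, shx (q i) (x i) 0 ≠ 0) ∧
      ∀ i l, Θ.x i l = (shx (q i) (x i) 0)⁻¹ * shx (q i) (x i) l := by
  classical
  choose q c hq hc hqc using fun i => exists_sh (hh i) (smF_ne (hs i))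
  obtain ⟨x', hx'⟩ : ∃ x' : ∀ i, Fin (n i + 1) → K, x' = fun i => shx (q i) (x i) := ⟨_, rfl⟩
  obtain ⟨F', hF'⟩ : ∃ F' : ∀ i, MvPolynomial (Fin (n i + 1)) ℂ,
    F' = fun i => shF (q i) (c i) (F i) := ⟨_, rfl⟩
  have hhF' : ∀ i, (F' i).IsHomogeneous (dF i) := fun i => by
    rw [hF']
    exact shF_hom _ _ (hh i)
  have hsF' : ∀ i, SmF (F' i) := fun i => by
    rw [hF']
    exact shF_smooth (hq i) (hc i) (hs i)
  have hF3 : ∀ i, coeff (Finsupp.single (Fin.last (n i)) (dF i)) (F' i) = 1 := fun i => by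
    rw [hF']
    exact hqc i
  have hxx' : ∀ i j, x i j = x' i j + algebraMap ℂ K (q i j) * x' i (Fin.last (n i)) := by
    intro i j
    rw [hx']
    dsimp only
    rw [shx_last (hq i)]
    unfold shx
    ring
  have hev : ∀ i, aeval (x' i) (F' i) = algebraMap ℂ K (c i) * aeval (x i) (F i) := fun i => by
    rw [hx', hF']
    exact aeval_shF (hq i) _ _ _
  have hx'0 : ∀ i, x' i 0 ≠ 0 := by
    intro i h0
    rw [hx'] at h0
    obtain ⟨b, hb⟩ : ∃ b : Fin (n i), b.succ = Fin.last (n i) :=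
      ⟨⟨n i - 1, by have := hn i; omega⟩, by
        apply Fin.ext
        have := hn i
        simp only [Fin.val_succ, Fin.val_last]
        omega⟩
    have h1 : aeval (uu e x) (1 - MvPolynomial.C (q i 0) * X (e ⟨i, b⟩)) = 0 := by
      rw [map_sub, map_one, map_mul, aeval_C, aeval_X]
      have h2 : uu e x (e ⟨i, b⟩) = x i (Fin.last (n i)) / x i 0 := by
        change aff x (e.symm (e ⟨i, b⟩)) = _
        rw [e.symm_apply_apply, ← hb]
        rfl
      rw [h2]
      have h3 : x i 0 - algebraMap ℂ K (q i 0) * x i (Fin.last (n i)) = 0 := h0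
      have h4 := hx0 i
      field_simp
      linear_combination h3
    have h2 := (injective_iff_map_eq_zero _).1 hbas.1 _ h1
    have h3 := congrArg (eval (0 : Fin (N' + 1) → ℂ)) h2
    simp at h3
  obtain ⟨ρ, hρ⟩ : ∃ ρ : Fin r → K, ρ = fun i => x i 0 / x' i 0 := ⟨_, rfl⟩
  have hρ0 : ∀ i, ρ i ≠ 0 := fun i => by
    rw [hρ]
    exact div_ne_zero (hx0 i) (hx'0 i)
  -- the ratios in an intermediate field
  have hkey : ∀ L : IntermediateField ℂ K, (∀ b, uu e x' b ∈ L) → ∀ i j,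
      x i j / x' i 0 ∈ L := by
    intro L hL i j
    have h1 : ∀ j, x' i j / x' i 0 ∈ L := by
      intro j
      refine Fin.cases ?_ (fun l => ?_) j
      · rw [div_self (hx'0 i)]
        exact L.one_mem
      · have h2 := hL (e ⟨i, l⟩)
        have h3 : uu e x' (e ⟨i, l⟩) = x' i l.succ / x' i 0 := by
          change aff x' (e.symm (e ⟨i, l⟩)) = _
          rw [e.symm_apply_apply]
          rfl
        rwa [h3] at h2
    have h2 : x i j / x' i 0 = x' i j / x' i 0 +
        algebraMap ℂ K (q i j) * (x' i (Fin.last (n i)) / x' i 0) := by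
      rw [hxx' i j]
      ring
    rw [h2]
    exact L.add_mem (h1 j) (L.mul_mem (L.algebraMap_mem _) (h1 _))
  have hkey2 : ∀ L : IntermediateField ℂ K, (∀ b, uu e x' b ∈ L) → ∀ b, uu e x b ∈ L := by
    intro L hL b
    have h1 : uu e x b = (x (e.symm b).1 (e.symm b).2.succ / x' (e.symm b).1 0) /
        (x (e.symm b).1 0 / x' (e.symm b).1 0) := by
      rw [div_div_div_cancel_right₀ (hx'0 _)]
      rfl
    rw [h1]
    exact L.div_mem (hkey L hL _ _) (hkey L hL _ _)
  have hbas' : IsTranscendenceBasis ℂ (uu e x') := by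
    refine basis_of_le hbas ?_
    rw [IntermediateField.adjoin_le_iff]
    rintro _ ⟨b, rfl⟩
    refine hkey2 _ (fun b' => ?_) b
    exact IntermediateField.subset_adjoin ℂ _ (Set.mem_range_self b')
  -- the constants
  have hκ : ∀ j, ∃ κ : ℂ, κ ^ M j = ∏ i, c i ^ a j i := fun j =>
    IsAlgClosed.exists_pow_nat_eq _ (hM j)
  choose κ hκ using hκ
  have hκ0 : ∀ j, κ j ≠ 0 := by
    intro j h0
    have h1 := hκ j
    rw [h0, zero_pow (hM j).ne'] at h1
    exact (Finset.prod_ne_zero_iff.2 fun i _ => pow_ne_zero _ (hc i)) h1.symm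
  obtain ⟨s, hs'⟩ : ∃ s : Fin R → K, s = fun j => algebraMap ℂ K (κ j) *
    ∏ i, ρ i ^ (a j i * dF i / M j) := ⟨_, rfl⟩
  have hs0 : ∀ j, s j ≠ 0 := fun j => by
    rw [hs']
    exact mul_ne_zero (by rw [Ne, map_eq_zero]; exact hκ0 j)
      (Finset.prod_ne_zero_iff.2 fun i _ => pow_ne_zero _ (hρ0 i))
  have hsM : ∀ j, s j ^ M j = ∏ i, (algebraMap ℂ K (c i) * ρ i ^ dF i) ^ a j i := by
    intro j
    rw [hs']
    dsimp only
    rw [mul_pow, ← map_pow, hκ, map_prod, ← Finset.prod_pow, ← Finset.prod_mul_distrib]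
    refine Finset.prod_congr rfl fun i _ => ?_
    rw [map_pow, ← pow_mul, Nat.div_mul_cancel (hdiv j i), mul_pow, ← pow_mul, mul_comm (dF i)]
  obtain ⟨x2, hx2⟩ : ∃ x2 : ∀ i, Fin (n i + 1) → K, x2 = fun i l => (x' i 0)⁻¹ * x' i l := ⟨_, rfl⟩
  have hx20 : ∀ i, x2 i 0 = 1 := fun i => by
    rw [hx2]
    exact inv_mul_cancel₀ (hx'0 i)
  have huu : uu e x2 = uu e x' := by
    rw [hx2]
    exact uu_scale e x' fun i => inv_ne_zero (hx'0 i)
  refine ⟨⟨x2, hx20, by rw [huu]; exact hbas', F', hn, hdF, hhF', hsF', hF3,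
    ⟨uu e x2, by rw [huu]; exact hbas', fun j => z j * s j, M, hM, a, fun j => ?_, hdiv, ?_⟩, rfl⟩,
    rfl, rfl, q, c, hq, hc, fun i => congrFun hF' i, fun i => by
      have h1 := hx'0 i
      rw [hx'] at h1
      exact h1, fun i l => by
      change x2 i l = _
      rw [hx2, hx']⟩
  · rw [huu, mul_pow, hz, hsM, ← Finset.prod_mul_distrib]
    refine Finset.prod_congr rfl fun i _ => ?_
    have h1 : aeval (uu e x') ((hblk e hn hdF hhF' hF3).F i) =
        aeval (x' i) (F' i) / x' i 0 ^ dF i := aeval_dh e hx'0 (hhF' i)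
    rw [h1, hev, ← mul_pow, hρ]
    congr 1
    have h2 := hx0 i
    have h3 := hx'0 i
    dsimp only
    rw [div_pow]
    field_simp
  · rw [huu, eq_top_iff, ← hgen, IntermediateField.adjoin_le_iff]
    obtain ⟨L, hL⟩ : ∃ L, L = IntermediateField.adjoin ℂ (Set.range (uu e x') ∪
      Set.range fun j => z j * s j) := ⟨_, rfl⟩
    rw [← hL]
    have hu : ∀ b, uu e x' b ∈ L := fun b => by
      rw [hL]
      exact IntermediateField.subset_adjoin ℂ _ (Or.inl ⟨b, rfl⟩)
    rintro _ (⟨b, rfl⟩ | ⟨j, rfl⟩)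
    · exact hkey2 L hu b
    · have h1 : z j * s j ∈ L := by
        rw [hL]
        exact IntermediateField.subset_adjoin ℂ _ (Or.inr ⟨j, rfl⟩)
      have h2 : s j ∈ L := by
        rw [hs']
        refine L.mul_mem (L.algebraMap_mem _) (L.prod_mem fun i _ => ?_)
        have h3 : ρ i ∈ L := by
          rw [hρ]
          exact hkey L hu i 0
        exact pow_mem h3 _
      have h3 := L.div_mem h1 h2
      rwa [mul_div_cancel_right₀ _ (hs0 j)] at h3


/-- the multiplicities -/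
structure Mu (x : ∀ i, Fin (n i + 1) → K) (F : ∀ i, MvPolynomial (Fin (n i + 1)) ℂ)
    (dF : Fin r → ℕ) (P : Place ℂ K) (α : Fin r → ℤ) (v : Fin r → ℕ) : Prop where
  h1 : ∀ i l, α i ≤ P.ord (x i l)
  h2 : ∀ i, ∃ l, P.ord (x i l) = α i
  h3 : ∀ i, P.ord (aeval (x i) (F i)) = dF i * α i + v i

theorem Mu.unique {x : ∀ i, Fin (n i + 1) → K} {F : ∀ i, MvPolynomial (Fin (n i + 1)) ℂ}
    {dF : Fin r → ℕ} {P : Place ℂ K} {α α' : Fin r → ℤ} {v v' : Fin r → ℕ}
    (h : Mu x F dF P α v) (h' : Mu x F dF P α' v') : α = α' ∧ v = v' := by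
  have h1 : α = α' := by
    funext i
    obtain ⟨l, hl⟩ := h.h2 i
    obtain ⟨l', hl'⟩ := h'.h2 i
    have h3 := h.h1 i l'
    have h4 := h'.h1 i l
    omega
  refine ⟨h1, ?_⟩
  subst h1
  funext i
  have h3 := h.h3 i
  have h4 := h'.h3 i
  omega

/-- the multiplicities exist -/
theorem exists_mu {x : ∀ i, Fin (n i + 1) → K} {F : ∀ i, MvPolynomial (Fin (n i + 1)) ℂ}
    {dF : Fin r → ℕ} (hx : ∀ i l, x i l ≠ 0) (hh : ∀ i, (F i).IsHomogeneous (dF i))
    (hFx : ∀ i, aeval (x i) (F i) ≠ 0) (P : Place ℂ K) : ∃ α v, Mu x F dF P α v := by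
  classical
  have hmin : ∀ i, ∃ j : Fin (n i + 1), ∀ l, P.ord (x i j) ≤ P.ord (x i l) := by
    intro i
    obtain ⟨j, -, hj⟩ := Finset.exists_min_image Finset.univ (fun l => P.ord (x i l))
      ⟨(0 : Fin (n i + 1)), Finset.mem_univ _⟩
    exact ⟨j, fun l => hj l (Finset.mem_univ l)⟩
  choose j hj using hmin
  obtain ⟨α, hα⟩ : ∃ α : Fin r → ℤ, α = fun i => P.ord (x i (j i)) := ⟨_, rfl⟩
  have hv : ∀ i, ∃ v : ℕ, P.ord (aeval (x i) (F i)) = dF i * α i + v := by
    intro i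
    have h1 : aeval (x i) (F i) = x i (j i) ^ dF i *
        aeval (fun l => x i l / x i (j i)) (F i) := by
      rw [← aeval_smul_form (hh i)]
      congr 2
      funext l
      rw [mul_div_cancel₀ _ (hx i _)]
    have h2 : aeval (fun l => x i l / x i (j i)) (F i) ≠ 0 := by
      intro h0
      rw [h0, mul_zero] at h1
      exact hFx i h1
    have h3 : P.Reg (aeval (fun l => x i l / x i (j i)) (F i)) := by
      refine reg_aeval (fun l => Or.inr ?_) _
      rw [P.ord_div (hx i l) (hx i _)]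
      linarith [hj i l]
    have h4 := h3.resolve_left h2
    refine ⟨(P.ord (aeval (fun l => x i l / x i (j i)) (F i))).toNat, ?_⟩
    rw [Int.toNat_of_nonneg h4, h1, P.ord_mul (pow_ne_zero _ (hx i _)) h2, P.ord_pow, hα]
  choose v hv using hv
  exact ⟨α, v, fun i l => by rw [hα]; exact hj i l, fun i => ⟨j i, by rw [hα]⟩, hv⟩

/-- the log places -/
def Lg (x : ∀ i, Fin (n i + 1) → K) (F : ∀ i, MvPolynomial (Fin (n i + 1)) ℂ)
    (dF : Fin r → ℕ) (P : Place ℂ K) : Prop :=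
  ∃ α v, Mu x F dF P α v ∧ ∃ D : Fin (N' + 1) → Derivation ℂ K K, (∀ c, DerReg P (D c)) ∧
    om e D x ≠ 0 ∧ P.ord (om e D x) < ∑ i, ((n i : ℤ) + 1) * α i + ∑ i, (v i : ℤ)

/-- the matrices of the shear -/
noncomputable def shm (q : ∀ i, Fin (n i + 1) → ℂ) (i : Fin r) :
    Matrix (Fin (n i + 1)) (Fin (n i + 1)) ℂ :=
  Matrix.of fun j l => (if j = l then 1 else 0) - (if l = Fin.last (n i) then q i j else 0)

theorem chg_shm (q : ∀ i, Fin (n i + 1) → ℂ) (x : ∀ i, Fin (n i + 1) → K) :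
    chg (shm q) x = fun i => shx (q i) (x i) := by
  classical
  funext i j
  unfold chg shm shx
  simp only [Matrix.of_apply, map_sub, sub_mul, Finset.sum_sub_distrib]
  congr 1
  · rw [Finset.sum_eq_single j]
    · simp
    · intro l _ hl
      rw [if_neg (Ne.symm hl), map_zero, zero_mul]
    · intro h
      exact absurd (Finset.mem_univ _) h
  · rw [Finset.sum_eq_single (Fin.last (n i))]
    · simp
    · intro l _ hl
      rw [if_neg hl, map_zero, zero_mul]
    · intro h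
      exact absurd (Finset.mem_univ _) h

theorem det_shm {q : ∀ i, Fin (n i + 1) → ℂ} (hq : ∀ i, q i (Fin.last (n i)) = 0) (i : Fin r) :
    (shm q i).det ≠ 0 := by
  classical
  have h1 : shm q i * shm (fun i j => - q i j) i = 1 := by
    ext j l
    rw [Matrix.mul_apply, Matrix.one_apply]
    unfold shm
    simp only [Matrix.of_apply, sub_mul, mul_sub, Finset.sum_sub_distrib]
    have e1 : ∑ k, (if j = k then (1 : ℂ) else 0) * (if k = l then 1 else 0) =
        if j = l then 1 else 0 := by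
      rw [Finset.sum_eq_single j]
      · simp
      · intro k _ hk
        rw [if_neg (Ne.symm hk), zero_mul]
      · intro h
        exact absurd (Finset.mem_univ _) h
    have e2 : ∑ k, (if j = k then (1 : ℂ) else 0) * (if l = Fin.last (n i) then - q i k else 0) =
        if l = Fin.last (n i) then - q i j else 0 := by
      rw [Finset.sum_eq_single j]
      · simp
      · intro k _ hk
        rw [if_neg (Ne.symm hk), zero_mul]
      · intro h
        exact absurd (Finset.mem_univ _) h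
    have e3 : ∑ k, (if k = Fin.last (n i) then q i j else 0) * (if k = l then (1 : ℂ) else 0) =
        if l = Fin.last (n i) then q i j else 0 := by
      rw [Finset.sum_eq_single l]
      · simp
      · intro k _ hk
        rw [if_neg hk, mul_zero]
      · intro h
        exact absurd (Finset.mem_univ _) h
    have e4 : ∑ k, (if k = Fin.last (n i) then q i j else 0) *
        (if l = Fin.last (n i) then - q i k else 0) = 0 := by
      refine Finset.sum_eq_zero fun k _ => ?_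
      by_cases hk : k = Fin.last (n i)
      · rw [hk, hq]
        simp
      · rw [if_neg hk, zero_mul]
    rw [e1, e2, e3, e4]
    split_ifs <;> simp
  intro h0
  have h2 := congrArg Matrix.det h1
  rw [Matrix.det_mul, h0, zero_mul, Matrix.det_one] at h2
  exact zero_ne_one h2

section inv

variable {e}
variable {x x2 : ∀ i, Fin (n i + 1) → K} {F F2 : ∀ i, MvPolynomial (Fin (n i + 1)) ℂ}
  {dF : Fin r → ℕ} {q : ∀ i, Fin (n i + 1) → ℂ} {c : Fin r → ℂ}

/-- the multiplicities in the new coordinates -/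
theorem mu_inv (hq : ∀ i, q i (Fin.last (n i)) = 0) (hc : ∀ i, c i ≠ 0)
    (hF2 : ∀ i, F2 i = shF (q i) (c i) (F i)) (hh : ∀ i, (F i).IsHomogeneous (dF i))
    (hx' : ∀ i l, x i l ≠ 0) (hFx : ∀ i, aeval (x i) (F i) ≠ 0)
    (h0 : ∀ i, shx (q i) (x i) 0 ≠ 0)
    (hx2 : ∀ i l, x2 i l = (shx (q i) (x i) 0)⁻¹ * shx (q i) (x i) l)
    (hx2' : ∀ i l, x2 i l ≠ 0)
    {P : Place ℂ K} {α : Fin r → ℤ} {v : Fin r → ℕ} (h : Mu x F dF P α v) :
    Mu x2 F2 dF P (fun i => α i - P.ord (shx (q i) (x i) 0)) v := by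
  classical
  have hsh : ∀ i l, shx (q i) (x i) l ≠ 0 := by
    intro i l h1
    apply hx2' i l
    rw [hx2, h1, mul_zero]
  have hle : ∀ i l, α i ≤ P.ord (shx (q i) (x i) l) := by
    intro i l
    have h1 : Ge P (α i) (shx (q i) (x i) l) := by
      unfold shx
      refine Ge.sub (Or.inr (h.h1 i l)) ?_
      have h2 := (Ge.const (P := P) (q i l)).mul (Or.inr (h.h1 i (Fin.last (n i))) :
        Ge P (α i) (x i (Fin.last (n i))))
      simpa using h2
    exact h1.resolve_left (hsh i l)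
  have hordx : ∀ i l, P.ord (x2 i l) =
      P.ord (shx (q i) (x i) l) - P.ord (shx (q i) (x i) 0) := by
    intro i l
    rw [hx2, P.ord_mul (inv_ne_zero (h0 i)) (hsh i l), P.ord_inv]
    ring
  refine ⟨fun i l => ?_, fun i => ?_, fun i => ?_⟩
  · rw [hordx]
    linarith [hle i l]
  · by_contra hcon
    push Not at hcon
    have h1 : ∀ l, α i + 1 ≤ P.ord (shx (q i) (x i) l) := by
      intro l
      have h2 := hcon l
      rw [hordx] at h2
      have h3 := hle i l
      by_contra h4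
      apply h2
      have h5 : P.ord (shx (q i) (x i) l) = α i := by omega
      rw [h5]
    obtain ⟨l, hl⟩ := h.h2 i
    have h2 : Ge P (α i + 1) (x i l) := by
      have h3 : x i l = shx (q i) (x i) l +
          algebraMap ℂ K (q i l) * shx (q i) (x i) (Fin.last (n i)) := by
        rw [shx_last (hq i)]
        unfold shx
        ring
      rw [h3]
      refine Ge.add (Or.inr (h1 l)) ?_
      have h2 := (Ge.const (P := P) (q i l)).mul (Or.inr (h1 (Fin.last (n i))) :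
        Ge P (α i + 1) (shx (q i) (x i) (Fin.last (n i))))
      simpa using h2
    have h3 := h2.resolve_left (hx' i l)
    omega
  · have h1 : aeval (x2 i) (F2 i) = (shx (q i) (x i) 0)⁻¹ ^ dF i *
        (algebraMap ℂ K (c i) * aeval (x i) (F i)) := by
      have h2 : x2 i = fun l => (shx (q i) (x i) 0)⁻¹ * shx (q i) (x i) l := funext (hx2 i)
      rw [h2, aeval_smul_form (by rw [hF2]; exact shF_hom _ _ (hh i)), hF2,
        aeval_shF (hq i)]
    have hcK : algebraMap ℂ K (c i) ≠ 0 := by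
      rw [Ne, map_eq_zero]
      exact hc i
    rw [h1, P.ord_mul (pow_ne_zero _ (inv_ne_zero (h0 i))) (mul_ne_zero hcK (hFx i)), P.ord_pow,
      P.ord_inv, P.ord_mul hcK (hFx i), P.ord_const (hc i), h.h3]
    ring

/-- the canonical form in the new coordinates -/
theorem om_inv (hx0 : ∀ i, x i 0 ≠ 0) (hbas : IsTranscendenceBasis ℂ (uu e x))
    (hq : ∀ i, q i (Fin.last (n i)) = 0)
    (h0 : ∀ i, shx (q i) (x i) 0 ≠ 0)
    (hx2 : ∀ i l, x2 i l = (shx (q i) (x i) 0)⁻¹ * shx (q i) (x i) l) :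
    ∃ c0 : ℂ, c0 ≠ 0 ∧ ∀ D : Fin (N' + 1) → Derivation ℂ K K, om e D x2 =
      (∏ i, (shx (q i) (x i) 0)⁻¹ ^ (n i + 1)) * (algebraMap ℂ K c0 * om e D x) := by
  classical
  refine ⟨∏ i, (shm q i).det, Finset.prod_ne_zero_iff.2 fun i _ => det_shm hq i, fun D => ?_⟩
  have h1 : x2 = fun i l => (fun i => (shx (q i) (x i) 0)⁻¹) i * (chg (shm q) x) i l := by
    funext i l
    rw [hx2, chg_shm]
  rw [h1, om_scale e D _ (fun i => inv_ne_zero (h0 i)), om_change e hx0 hbas (shm q) (fun i => by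
    rw [chg_shm]
    exact h0 i) D]

/-- the log places in the new coordinates -/
theorem lg_inv (hx0 : ∀ i, x i 0 ≠ 0) (hbas : IsTranscendenceBasis ℂ (uu e x))
    (hq : ∀ i, q i (Fin.last (n i)) = 0) (hc : ∀ i, c i ≠ 0)
    (hF2 : ∀ i, F2 i = shF (q i) (c i) (F i)) (hh : ∀ i, (F i).IsHomogeneous (dF i))
    (hx' : ∀ i l, x i l ≠ 0) (hFx : ∀ i, aeval (x i) (F i) ≠ 0)
    (h0 : ∀ i, shx (q i) (x i) 0 ≠ 0)
    (hx2 : ∀ i l, x2 i l = (shx (q i) (x i) 0)⁻¹ * shx (q i) (x i) l)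
    (hx2' : ∀ i l, x2 i l ≠ 0) (P : Place ℂ K) : Lg e x F dF P ↔ Lg e x2 F2 dF P := by
  classical
  obtain ⟨c0, hc0, hom⟩ := om_inv (e := e) hx0 hbas hq h0 hx2
  have hc0K : algebraMap ℂ K c0 ≠ 0 := by
    rw [Ne, map_eq_zero]
    exact hc0
  have hprod : (∏ i, (shx (q i) (x i) 0)⁻¹ ^ (n i + 1)) ≠ 0 :=
    Finset.prod_ne_zero_iff.2 fun i _ => pow_ne_zero _ (inv_ne_zero (h0 i))
  have hne : ∀ D, om e D x2 ≠ 0 ↔ om e D x ≠ 0 := by
    intro D
    rw [hom]
    constructor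
    · intro h1 h2
      apply h1
      rw [h2, mul_zero, mul_zero]
    · intro h1
      exact mul_ne_zero hprod (mul_ne_zero hc0K h1)
  have hord : ∀ D, om e D x ≠ 0 → P.ord (om e D x2) = P.ord (om e D x) -
      ∑ i, ((n i : ℤ) + 1) * P.ord (shx (q i) (x i) 0) := by
    intro D hD
    rw [hom, P.ord_mul hprod (mul_ne_zero hc0K hD), P.ord_mul hc0K hD, P.ord_const hc0,
      ord_prod' P Finset.univ _ fun i _ => pow_ne_zero _ (inv_ne_zero (h0 i))]
    have h1 : ∑ i, P.ord ((shx (q i) (x i) 0)⁻¹ ^ (n i + 1)) =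
        - ∑ i, ((n i : ℤ) + 1) * P.ord (shx (q i) (x i) 0) := by
      rw [← Finset.sum_neg_distrib]
      refine Finset.sum_congr rfl fun i _ => ?_
      rw [P.ord_pow, P.ord_inv]
      push_cast
      ring
    rw [h1]
    ring
  have hsum : ∀ α : Fin r → ℤ, ∑ i, ((n i : ℤ) + 1) * (α i - P.ord (shx (q i) (x i) 0)) =
      ∑ i, ((n i : ℤ) + 1) * α i - ∑ i, ((n i : ℤ) + 1) * P.ord (shx (q i) (x i) 0) := by
    intro α
    rw [← Finset.sum_sub_distrib]
    exact Finset.sum_congr rfl fun i _ => by ring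
  constructor
  · rintro ⟨α, v, hmu, D, hD, hD0, hlt⟩
    refine ⟨_, v, mu_inv hq hc hF2 hh hx' hFx h0 hx2 hx2' hmu, D, hD, (hne D).2 hD0, ?_⟩
    rw [hord D hD0, hsum]
    linarith
  · rintro ⟨α', v', hmu', D, hD, hD0, hlt⟩
    obtain ⟨α, v, hmu⟩ := exists_mu hx' hh hFx P
    obtain ⟨rfl, rfl⟩ := hmu'.unique (mu_inv hq hc hF2 hh hx' hFx h0 hx2 hx2' hmu)
    have hD0' := (hne D).1 hD0
    refine ⟨α, _, hmu, D, hD, hD0', ?_⟩
    rw [hord D hD0', hsum] at hlt
    linarith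

end inv

end Pool.Agent.H172.LG
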