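import Pool.Agent.H172.LG.TopR

/-!
Toroidal pairs: the final form.
-/

set_option autoImplicit false
set_option linter.overlappingInstances false
set_option linter.unusedSectionVars false
set_option maxHeartbeats 1000000

open FF MvPolynomial Pool.Agent.W603.LV Pool.Agent.W602.GT Pool.Agent.W602.Cov
open Pool.Agent.TH756.PR Pool.Agent.TH122.AB Pool.Agent.TH756.PN Pool.Agent.Y169.CH
open Pool.Agent.H172.EG

namespace Pool.Agent.H172.LG

variable {r R : ℕ} {n : Fin r → ℕ} {K : Type} [Field K] [Algebra ℂ K] {d : ℕ}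
  (e : ((i : Fin r) × Fin (n i)) ≃ Fin (d + 1))

open Classical in
/-- the sections of `m (K + Δ) + j A` -/
def LSec (x : ∀ i, Fin (n i + 1) → K) (F : ∀ i, MvPolynomial (Fin (n i + 1)) ℂ)
    (dF : Fin r → ℕ) (δ : (Fin r → ℕ) → ℝ) (S : Finset K) (m j : ℕ)
    (ω : (Fin (d + 1) → Derivation ℂ K K) → K) : Prop :=
  IsPluri m ω ∧ ∀ P : Place ℂ K, Divisorial (d + 1) P → ∀ α v, Mu x F dF P α v →
    (v = 0 ∨ Lg e x F dF P) → ∀ D : Fin (d + 1) → Derivation ℂ K K, (∀ c, DerReg P (D c)) →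
      ω D = 0 ∨ ∃ s ∈ S, s ≠ 0 ∧
        (j * P.ord s : ℝ) - (if v = 0 then 0 else m * δ v) ≤ P.ord (ω D)

/-- **The normalised cover.** -/
theorem exists_fin (hn : ∀ i, 1 ≤ n i) {x : ∀ i, Fin (n i + 1) → K} (hx0 : ∀ i, x i 0 ≠ 0)
    (hbas : IsTranscendenceBasis ℂ (uu e x)) {F : ∀ i, MvPolynomial (Fin (n i + 1)) ℂ}
    {dF : Fin r → ℕ} (hdF : ∀ i, 1 ≤ dF i) (hs : ∀ i, SmF (F i))
    (hh : ∀ i, (F i).IsHomogeneous (dF i)) {z : Fin R → K}
    {M : Fin R → ℕ} (hM : ∀ j, 0 < M j) {a : Fin R → Fin r → ℕ}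
    (hz : ∀ j, z j ^ M j = ∏ i, (aeval (x i) (F i) / x i 0 ^ dF i) ^ a j i)
    (hdiv : ∀ j i, M j ∣ a j i * dF i)
    (hgen : IntermediateField.adjoin ℂ (Set.range (uu e x) ∪ Set.range z) = ⊤) :
    ∃ Θ : Nc e dF K R, Θ.C.M = M ∧ Θ.C.a = a ∧
      (∀ (δ : (Fin r → ℕ) → ℝ) (S : Finset K) (m j : ℕ)
        (ω : (Fin (d + 1) → Derivation ℂ K K) → K),
        LSec e x F dF δ S m j ω → SecP (d + 1) (VT Θ) (dT Θ δ) (pw S j) m ω) ∧
      ∀ (δ : (Fin r → ℕ) → ℝ) (m j : ℕ) (ω : (Fin (d + 1) → Derivation ℂ K K) → K),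
        SecP (d + 1) (VT Θ) (dT Θ δ) {1} m ω → LSec e x F dF δ {1} m j ω := by
  classical
  obtain ⟨Θ, h1, h2, q, c, hq, hc, hF2, h0, hx2⟩ :=
    exists_nc2 e hn hx0 hbas hdF hs hh hM hz hdiv hgen
  have hx : ∀ i l, x i l ≠ 0 := by
    intro i l
    refine Fin.cases (hx0 i) (fun l => ?_) l
    intro h3
    have h4 : uu e x (e ⟨i, l⟩) = 0 := by
      change aff x (e.symm (e ⟨i, l⟩)) = 0
      rw [e.symm_apply_apply]
      change x i l.succ / x i 0 = 0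
      rw [h3, zero_div]
    exact hbas.1.ne_zero _ h4
  have hFx : ∀ i, aeval (x i) (F i) ≠ 0 := by
    intro i h3
    have h4 : aeval (Θ.x i) (Θ.F i) = 0 := by
      have h5 : Θ.x i = fun l => (shx (q i) (x i) 0)⁻¹ * shx (q i) (x i) l := funext (hx2 i)
      rw [h5, aeval_smul_form (Θ.hh i), hF2, aeval_shF (hq i), h3, mul_zero, mul_zero]
    exact Θ.Fx_ne i h4
  have hmu : ∀ {P α v}, Mu x F dF P α v → vec Θ P = v := by
    intro P α v h
    exact vec_eq (mu_inv hq hc hF2 hh hx hFx h0 hx2 Θ.x_ne h)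
  have hlg : ∀ P, Lg e x F dF P ↔ LgT Θ P := fun P =>
    lg_inv hx0 hbas hq hc hF2 hh hx hFx h0 hx2 Θ.x_ne P
  refine ⟨Θ, h1, h2, fun δ S m j ω => ?_, fun δ m j ω => ?_⟩
  · rintro ⟨h3, h4⟩
    refine ⟨h3, fun P hP hd D hD => ?_⟩
    obtain ⟨α, v, h5⟩ := exists_mu hx hh hFx P
    have h6 := hmu h5
    have h7 : v = 0 ∨ Lg e x F dF P := by
      rw [hlg, ← h6]
      exact hP
    rcases h4 P hd α v h5 h7 D hD with h8 | ⟨s, hs, hs0, hle⟩
    · exact Or.inl h8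
    · right
      refine ⟨s ^ j, mem_pw.2 ⟨s, hs, rfl⟩, pow_ne_zero _ hs0, ?_⟩
      rw [P.ord_pow]
      unfold dT
      rw [h6]
      push_cast
      by_cases hv : v = 0
      · rw [if_pos hv] at hle ⊢
        rw [mul_zero]
        exact hle
      · rw [if_neg hv] at hle ⊢
        exact hle
  · rintro ⟨h3, h4⟩
    refine ⟨h3, fun P hd α v h5 h7 D hD => ?_⟩
    have h6 := hmu h5
    have hP : P ∈ VT Θ := by
      change vec Θ P = 0 ∨ LgT Θ P
      rw [h6, ← hlg]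
      exact h7
    rcases h4 P hP hd D hD with h8 | ⟨s', hs', hs0, hle⟩
    · exact Or.inl h8
    · right
      rw [Finset.mem_singleton] at hs'
      subst hs'
      refine ⟨1, by simp, one_ne_zero, ?_⟩
      rw [P.ord_one] at hle ⊢
      unfold dT at hle
      rw [h6] at hle
      push_cast at hle ⊢
      rw [mul_zero]
      by_cases hv : v = 0
      · rw [if_pos hv] at hle ⊢
        rw [mul_zero] at hle
        exact hle
      · rw [if_neg hv] at hle ⊢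
        exact hle

/-- the primitive vectors on the axes -/
theorem exists_unit {M : Fin R → ℕ} {a : Fin R → Fin r → ℕ} {L : ℕ} (hL : 1 ≤ L)
    (hML : ∀ j, M j ∣ L) (i : Fin r) :
    ∃ k, k ≤ L ∧ Prim M a fun t => if t = i then k else 0 := by
  classical
  have hex : ∃ k, 1 ≤ k ∧ ∀ j, M j ∣ ∑ t, a j t * (if t = i then k else 0) := by
    refine ⟨L, hL, fun j => Finset.dvd_sum fun t _ => ?_⟩
    split_ifs
    · exact dvd_mul_of_dvd_right (hML j) _
    · rw [mul_zero]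
      exact dvd_zero _
  obtain ⟨hk1, hk2⟩ := Nat.find_spec hex
  obtain ⟨k, hk⟩ : ∃ k, k = Nat.find hex := ⟨_, rfl⟩
  rw [← hk] at hk1 hk2
  refine ⟨k, ?_, ⟨?_, hk2⟩, fun c u hu hcu => ?_⟩
  · rw [hk]
    refine Nat.find_le ⟨hL, fun j => Finset.dvd_sum fun t _ => ?_⟩
    split_ifs
    · exact dvd_mul_of_dvd_right (hML j) _
    · rw [mul_zero]
      exact dvd_zero _
  · intro h0
    have h1 := congrFun h0 i
    rw [if_pos rfl, Pi.zero_apply] at h1
    omega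
  · have hcu : ∀ t, (if t = i then k else 0) = c * u t := hcu
    have h1 := hcu i
    rw [if_pos rfl] at h1
    have hc : c ≠ 0 := by
      rintro rfl
      rw [zero_mul] at h1
      omega
    have hu0 : ∀ t, t ≠ i → u t = 0 := by
      intro t ht
      have h2 := hcu t
      rw [if_neg ht] at h2
      exact (Nat.mul_eq_zero.1 h2.symm).resolve_left hc
    have hue : u = fun t => if t = i then u i else 0 := by
      funext t
      by_cases ht : t = i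
      · rw [if_pos ht, ht]
      · rw [if_neg ht, hu0 t ht]
    have hui : 1 ≤ u i := by
      rcases Nat.eq_zero_or_pos (u i) with h2 | h2
      · rw [h2, mul_zero] at h1
        omega
      · exact h2
    have h3 : k ≤ u i := by
      rw [hk]
      refine Nat.find_le ⟨hui, fun j => ?_⟩
      have h4 := hu.2 j
      rw [hue] at h4
      exact h4
    have h5 : c * u i ≤ 1 * u i := by
      rw [← h1, one_mul]
      exact h3
    have h6 := Nat.le_of_mul_le_mul_right h5 hui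
    omega

section main

variable {e}

/-- **The inequalities for pseudo-effective pairs.** -/
theorem psef_main (hn : ∀ i, 1 ≤ n i) {x : ∀ i, Fin (n i + 1) → K} (hx0 : ∀ i, x i 0 ≠ 0)
    (hbas : IsTranscendenceBasis ℂ (uu e x)) {F : ∀ i, MvPolynomial (Fin (n i + 1)) ℂ}
    {dF : Fin r → ℕ} (hdF : ∀ i, 1 ≤ dF i) (hs : ∀ i, SmF (F i))
    (hh : ∀ i, (F i).IsHomogeneous (dF i)) {z : Fin R → K}
    {M : Fin R → ℕ} (hM : ∀ j, 0 < M j) {a : Fin R → Fin r → ℕ}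
    (hz : ∀ j, z j ^ M j = ∏ i, (aeval (x i) (F i) / x i 0 ^ dF i) ^ a j i)
    (hdiv : ∀ j i, M j ∣ a j i * dF i)
    (hgen : IntermediateField.adjoin ℂ (Set.range (uu e x) ∪ Set.range z) = ⊤)
    {δ : (Fin r → ℕ) → ℝ} (hδ : ∀ v, δ v ≤ 1) {v : Fin r → ℕ} (hv : Prim M a v)
    (hps : ∃ S : Finset K, ∀ m : ℕ, ∃ j : ℕ, 1 ≤ j ∧
      ∃ ω : (Fin (d + 1) → Derivation ℂ K K) → K, ω ≠ 0 ∧ LSec e x F dF δ S (j * m) j ω) :
    1 - δ v ≤ ∑ i, (((dF i : ℝ) - n i - 1) / dF i) * v i := by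
  obtain ⟨Θ, rfl, rfl, h3, -⟩ := exists_fin e hn hx0 hbas hdF hs hh hM hz hdiv hgen
  by_contra hcon
  push Not at hcon
  obtain ⟨S, hS⟩ := hps
  obtain ⟨m, hm⟩ := psef_wt Θ S hv hδ hcon
  obtain ⟨j, hj, ω, hω0, hω⟩ := hS m
  exact hω0 (hm j hj ω (h3 _ _ _ _ _ hω))

/-- **The asymptotic orders.** -/
theorem asym_main (hn : ∀ i, 1 ≤ n i) {x : ∀ i, Fin (n i + 1) → K} (hx0 : ∀ i, x i 0 ≠ 0)
    (hbas : IsTranscendenceBasis ℂ (uu e x)) {F : ∀ i, MvPolynomial (Fin (n i + 1)) ℂ}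
    {dF : Fin r → ℕ} (hdF : ∀ i, 1 ≤ dF i) (hs : ∀ i, SmF (F i))
    (hh : ∀ i, (F i).IsHomogeneous (dF i)) {z : Fin R → K}
    {M : Fin R → ℕ} (hM : ∀ j, 0 < M j) {a : Fin R → Fin r → ℕ}
    (hz : ∀ j, z j ^ M j = ∏ i, (aeval (x i) (F i) / x i 0 ^ dF i) ^ a j i)
    (hdiv : ∀ j i, M j ∣ a j i * dF i)
    (hgen : IntermediateField.adjoin ℂ (Set.range (uu e x) ∪ Set.range z) = ⊤)
    {δ : (Fin r → ℕ) → ℚ} (hδ : ∀ v, δ v ≤ 1) {rays : Finset (Fin r → ℕ)}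
    (hrays : ∀ v ∈ rays, Prim M a v) (hoff : ∀ v, v ∉ rays → δ v = 1)
    {B L D q : ℕ} (hB1 : ∀ i, dF i ≤ B) (hB2 : ∀ v ∈ rays, ∀ i, v i ≤ B)
    (hL : 1 ≤ L) (hLB : L ≤ B) (hML : ∀ j, M j ∣ L) (hD0 : 0 < D)
    (hDd : ∀ i, 1 ≤ i → i ≤ r.factorial * B ^ r → i ∣ D)
    (hq0 : 0 < q) (hq : ∀ v ∈ rays, ∃ z : ℤ, (q : ℚ) * δ v = z)
    (hpos : ∀ v, Prim M a v → 1 - δ v ≤ ∑ i, (((dF i : ℚ) - n i - 1) / dF i) * v i) :
    ∃ (k : ℕ) (s : Fin k → (Fin (d + 1) → Derivation ℂ K K) → K),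
      0 < k ∧ (∃ D0, ∀ b, s b D0 ≠ 0) ∧
      (∀ b j, LSec e x F dF (fun v => (δ v : ℝ)) {1} (q * D) j (s b)) ∧
      ∀ P : Place ℂ K, ∃ b,
        (∀ (m : ℕ) (ω : (Fin (d + 1) → Derivation ℂ K K) → K), 1 ≤ m →
          LSec e x F dF (fun v => (δ v : ℝ)) {1} m 1 ω →
          ∀ Dv, ω Dv ≠ 0 → s b Dv ≠ 0 ∧
            (m : ℤ) * P.ord (s b Dv) ≤ (q * D : ℕ) * P.ord (ω Dv)) ∧
        ∀ S : Finset K, ∃ c : ℕ, ∀ (m : ℕ) (ω : (Fin (d + 1) → Derivation ℂ K K) → K), 1 ≤ m →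
          LSec e x F dF (fun v => (δ v : ℝ)) S m 1 ω →
          ∀ Dv, ω Dv ≠ 0 → s b Dv ≠ 0 ∧
            (m : ℤ) * P.ord (s b Dv) ≤ (q * D : ℕ) * P.ord (ω Dv) + c := by
  classical
  obtain ⟨Θ, rfl, rfl, h3, h4⟩ := exists_fin e hn hx0 hbas hdF hs hh hM hz hdiv hgen
  choose u hu1 hu2 using fun i => exists_unit (a := Θ.C.a) hL hML i
  let T : Finset (Fin r → ℕ) := rays ∪ Finset.univ.image fun i t => if t = i then u i else 0
  have hT : ∀ v ∈ T, Prim Θ.C.M Θ.C.a v ∧ (∀ i, v i ≤ B) ∧ ∃ z : ℤ, (q : ℚ) * δ v = z := by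
    intro v hv
    by_cases hvr : v ∈ rays
    · exact ⟨hrays v hvr, hB2 v hvr, hq v hvr⟩
    · rcases Finset.mem_union.1 hv with h5 | h5
      · exact absurd h5 hvr
      · obtain ⟨i, -, rfl⟩ := Finset.mem_image.1 h5
        refine ⟨hu2 i, fun t => ?_, q, ?_⟩
        · dsimp only
          split_ifs
          · exact (hu1 i).trans hLB
          · exact Nat.zero_le _
        · rw [hoff _ hvr, mul_one]
          rfl
  obtain ⟨k, s, hk, hs0, hs1, hs2⟩ := topP Θ (ρ := fun v : T => v.1) (B := B) (D := D) (q := q)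
    (fun v => (hT v.1 v.2).1) (fun i => by
      refine ⟨⟨fun t => if t = i then u i else 0, Finset.mem_union_right _
        (Finset.mem_image_of_mem _ (Finset.mem_univ i))⟩, ?_, fun t ht => if_neg ht⟩
      dsimp only
      rw [if_pos rfl]
      intro h0
      apply (hu2 i).1.1
      funext t
      rw [h0]
      simp) hδ (fun v hv => by
      refine hoff v fun hvr => hv ⟨v, Finset.mem_union_left _ hvr⟩ rfl) hB1
    (fun v => (hT v.1 v.2).2.1) hDd hD0 hq0 (fun v => (hT v.1 v.2).2.2)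
    (fun v => hpos _ (hT v.1 v.2).1)
  refine ⟨k, s, hk, hs0, fun b j => h4 _ _ _ _ (hs1 b), fun P => ?_⟩
  obtain ⟨b, hb1, hb2⟩ := hs2 P
  refine ⟨b, fun m ω hm hω => hb1 m ω hm ?_, fun S => ?_⟩
  · have h5 := h3 _ _ _ _ _ hω
    rwa [Cvr.pw_one] at h5
  · obtain ⟨c, hc⟩ := hb2 S
    refine ⟨c, fun m ω hm hω => hc m ω hm ?_⟩
    have h5 := h3 _ _ _ _ _ hω
    rwa [Cvr.pw_one] at h5

/-- powers of sections -/
theorem lsec_pow {x : ∀ i, Fin (n i + 1) → K} {F : ∀ i, MvPolynomial (Fin (n i + 1)) ℂ}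
    {dF : Fin r → ℕ} {δ : (Fin r → ℕ) → ℝ} {m j : ℕ}
    {ω : (Fin (d + 1) → Derivation ℂ K K) → K} (h : LSec e x F dF δ {1} m j ω) (k j' : ℕ) :
    LSec e x F dF δ {1} (m * k) j' fun D => ω D ^ k := by
  classical
  refine ⟨fun A D => ?_, fun P hd α v hmu hP D hD => ?_⟩
  · have h1 := h.1 A D
    dsimp only
    rw [h1, mul_pow, ← pow_mul]
  · rcases h.2 P hd α v hmu hP D hD with h1 | ⟨s, hs, -, hle⟩
    · by_cases hk : k = 0
      · right
        refine ⟨1, by simp, one_ne_zero, ?_⟩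
        rw [P.ord_one]
        simp [hk, P.ord_one]
      · left
        dsimp only
        rw [h1, zero_pow hk]
    · right
      rw [Finset.mem_singleton] at hs
      subst hs
      refine ⟨1, by simp, one_ne_zero, ?_⟩
      rw [P.ord_pow]
      rw [P.ord_one] at hle ⊢
      by_cases hv : v = 0
      · rw [if_pos hv] at hle ⊢
        push_cast at hle ⊢
        have h2 := mul_le_mul_of_nonneg_left hle (show (0 : ℝ) ≤ k by positivity)
        linarith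
      · rw [if_neg hv] at hle ⊢
        push_cast at hle ⊢
        have h2 := mul_le_mul_of_nonneg_left hle (show (0 : ℝ) ≤ k by positivity)
        linarith

end main

end Pool.Agent.H172.LG
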