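import Pool.Agent.H172.LG.Base
import Pool.Agent.H172.EF.Top

/-!
The order of the sections of `m (K + Δ) + A` on logarithmic vector fields.
-/

set_option autoImplicit false
set_option linter.overlappingInstances false
set_option linter.unusedSectionVars false

open FF Pool.Agent.W603.LV Pool.Agent.W619.PQ Pool.Agent.W619.TW
open Pool.Agent.W619.Y Pool.Agent.TH122.AB Pool.Agent.TH756.PN

namespace Pool.Agent.H172.LG

section

variable {k : Type} [Field k] [CharZero k] {K : Type} [Field K] [Algebra k K] {n : ℕ}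

/-- The order on logarithmic vector fields is at least `m`. -/
theorem jacLP (htr : Algebra.trdeg k K = n)
    (hfd : ∀ y : Fin n → K, IsTranscendenceBasis k y →
      FiniteDimensional (IntermediateField.adjoin k (Set.range y)) K)
    {w : Place k K} (hw : IsDivisorial w n) (dd : Fin n → Derivation k K K)
    (hlog : ∀ b, ∀ z : K, w.Reg (dd b z / z)) (S : Finset K) (m : ℕ)
    (ω : (Fin n → Derivation k K K) → K) (V : Set (Place k K)) (δ : Place k K → ℝ) (hV : w ∈ V)
    (hω : SecP n V δ S m ω) :
    ω dd = 0 ∨ ∃ s ∈ S, s ≠ 0 ∧ (w.ord s : ℝ) + m * (1 - δ w) ≤ w.ord (ω dd) := by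
  classical
  obtain ⟨y, E', i0, hy, hE'y, hi0, hyreg, hEpres⟩ := pFRAME k K n htr hfd w hw
  let M : Matrix (Fin n) (Fin n) K := Matrix.of fun b c => dd b (y c)
  have hddE : dd = fun b => ∑ c, M b c • E' c := by
    funext b
    apply der_ext' hy
    intro j
    rw [sum_der, Finset.sum_eq_single j]
    · rw [hE'y, if_pos rfl, mul_one]
      rfl
    · intro c _ hc
      rw [hE'y, if_neg hc, mul_zero]
    · intro hj
      exact absurd (Finset.mem_univ _) hj
  have hy0 : ∀ c, y c ≠ 0 := by
    intro c h0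
    have h1 := hE'y c c
    rw [h0, map_zero, if_pos rfl] at h1
    exact zero_ne_one h1
  have hge : Ge w 1 M.det := by
    have h1 : M.det = (∏ c, y c) * (Matrix.of fun b c => dd b (y c) / y c).det := by
      rw [← Matrix.det_mul_row]
      congr 1
      ext b c
      simp only [M, Matrix.of_apply]
      rw [mul_div_cancel₀ _ (hy0 c)]
    rw [h1]
    have h2 : Ge w 0 (Matrix.of fun b c => dd b (y c) / y c).det :=
      Pool.Agent.W619.PQ.ge_det w _ fun b c => hlog b (y c)
    have h3 : Ge w 1 (∏ c, y c) := by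
      rw [← Finset.mul_prod_erase Finset.univ y (Finset.mem_univ i0)]
      have h4 : Ge w 0 (∏ c ∈ Finset.univ.erase i0, y c) := by
        refine Finset.prod_induction _ (fun z => Ge w 0 z) (fun a b ha hb => ?_) Ge.one
          fun c _ => hyreg c
        simpa using ha.mul hb
      have h5 : Ge w 1 (y i0) := Or.inr hi0.ge
      simpa using h5.mul h4
    simpa using h3.mul h2
  have hpl := hω.1 M E'
  rw [← hddE] at hpl
  have hsec := hω.2 w hV hw E' hEpres
  by_cases h0 : ω dd = 0
  · exact Or.inl h0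
  right
  rw [hpl] at h0
  have hM0 : M.det ^ m ≠ 0 := left_ne_zero_of_mul h0
  have h1 : ω E' ≠ 0 := right_ne_zero_of_mul h0
  obtain ⟨s, hs, hs0, hle⟩ := hsec.resolve_left h1
  refine ⟨s, hs, hs0, ?_⟩
  rw [hpl, w.ord_mul hM0 h1, w.ord_pow]
  by_cases hm : m = 0
  · subst hm
    simpa using hle
  have h3 : 1 ≤ w.ord M.det := hge.resolve_left fun h => hM0 (by rw [h, zero_pow hm])
  have h4 : (m : ℤ) * 1 ≤ m * w.ord M.det := mul_le_mul_of_nonneg_left h3 (by positivity)
  have h5 : (m : ℝ) ≤ m * w.ord M.det := by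
    rw [mul_one] at h4
    exact_mod_cast h4
  push_cast
  linarith

end

end Pool.Agent.H172.LG
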