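import Pool.Agent.H172.LG.JacLP

/-!
The order of the sections of `m (K + Δ) + A` at the three kinds of places.
-/

set_option autoImplicit false
set_option linter.overlappingInstances false
set_option linter.unusedSectionVars false
set_option maxHeartbeats 1000000

open FF MvPolynomial IntermediateField Pool.Agent.W603.LV Pool.Agent.W619.PQ
open Pool.Agent.W619.TW Pool.Agent.W602.GT Pool.Agent.TH122.AB Pool.Agent.TH756.PN
open Pool.Agent.TH756.PR Pool.Agent.Y169.CH Pool.Agent.H172.EG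

namespace Pool.Agent.H172.LG

variable {r R : ℕ} {n : Fin r → ℕ} {K : Type} [Field K] [Algebra ℂ K] {d : ℕ}
  {e : ((i : Fin r) × Fin (n i)) ≃ Fin (d + 1)} {dF : Fin r → ℕ} (Θ : Nc e dF K R)

/-- the multiplicities at a place -/
abbrev MuT (P : Place ℂ K) (α : Fin r → ℤ) (v : Fin r → ℕ) : Prop := Mu Θ.x Θ.F dF P α v

/-- the log places -/
abbrev LgT (P : Place ℂ K) : Prop := Lg e Θ.x Θ.F dF P

theorem exists_muT (P : Place ℂ K) : ∃ α v, MuT Θ P α v :=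
  exists_mu Θ.x_ne Θ.hh Θ.Fx_ne P

/-- the multiplicities -/
noncomputable def vec (P : Place ℂ K) : Fin r → ℕ := (exists_muT Θ P).choose_spec.choose

theorem vec_spec (P : Place ℂ K) : ∃ α, MuT Θ P α (vec Θ P) :=
  ⟨_, (exists_muT Θ P).choose_spec.choose_spec⟩

variable {Θ}

theorem vec_eq {P : Place ℂ K} {α : Fin r → ℤ} {v : Fin r → ℕ} (h : MuT Θ P α v) :
    vec Θ P = v := by
  obtain ⟨α', h'⟩ := vec_spec Θ P
  exact (h'.unique h).2

variable (Θ)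

/-- the prime divisors of the pair -/
def VT : Set (Place ℂ K) := {P | vec Θ P = 0 ∨ LgT Θ P}

open Classical in
/-- the coefficients -/
noncomputable def dT (δ : (Fin r → ℕ) → ℝ) (P : Place ℂ K) : ℝ :=
  if vec Θ P = 0 then 0 else δ (vec Θ P)

/-- regular coordinates -/
theorem mu_reg {P : Place ℂ K} (hreg : ∀ b, P.Reg (Θ.C.Z b)) :
    MuT Θ P 0 fun i => (P.ord (aeval (Θ.x i) (Θ.F i))).toNat := by
  have h1 : ∀ i l, P.Reg (Θ.x i l) := by
    intro i l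
    refine Fin.cases ?_ (fun l => ?_) l
    · rw [Θ.hx0]
      exact P.reg_one
    · have h2 := hreg (e ⟨i, l⟩)
      rw [Θ.hZ] at h2
      have h3 : uu e Θ.x (e ⟨i, l⟩) = Θ.x i l.succ := by
        change aff Θ.x (e.symm (e ⟨i, l⟩)) = _
        rw [e.symm_apply_apply]
        change Θ.x i l.succ / Θ.x i 0 = _
        rw [Θ.hx0, div_one]
      rwa [h3] at h2
  refine ⟨fun i l => ?_, fun i => ⟨0, ?_⟩, fun i => ?_⟩
  · exact (h1 i l).resolve_left (Θ.x_ne i l)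
  · rw [Θ.hx0, P.ord_one]
    rfl
  · have h2 : P.Reg (aeval (Θ.x i) (Θ.F i)) := reg_aeval (h1 i) _
    have h3 := h2.resolve_left (Θ.Fx_ne i)
    rw [Int.toNat_of_nonneg h3]
    simp

/-- the canonical form in the dual frame -/
theorem om_oneT {D0 : Fin (d + 1) → Derivation ℂ K K}
    (hD : ∀ i j, D0 i (Θ.C.Z j) = if i = j then 1 else 0) : om e D0 Θ.x = 1 := Θ.om_one hD

theorem om_pluri : IsPluriForm ℂ K (d + 1) 1 fun D => om e D Θ.x := by
  intro A D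
  change om e (fun i => ∑ j, A i j • D j) Θ.x = A.det ^ 1 * om e D Θ.x
  rw [om_lin, pow_one]

/-- a bound for the canonical form at a place which is not a log place -/
theorem om_sec {P : Place ℂ K} {α : Fin r → ℤ} {v : Fin r → ℕ} (h : MuT Θ P α v)
    (hn : ¬ LgT Θ P) : SecP (d + 1) {P}
      (fun _ => - ((∑ i, ((n i : ℤ) + 1) * α i + ∑ i, (v i : ℤ) : ℤ) : ℝ)) {1} 1
      fun D => om e D Θ.x := by
  refine ⟨om_pluri Θ, fun Q hQ _ D hD => ?_⟩
  rw [Set.mem_singleton_iff] at hQ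
  subst hQ
  by_cases h0 : om e D Θ.x = 0
  · exact Or.inl h0
  right
  refine ⟨1, by simp, one_ne_zero, ?_⟩
  have h1 : ∑ i, ((n i : ℤ) + 1) * α i + ∑ i, (v i : ℤ) ≤ Q.ord (om e D Θ.x) := by
    by_contra hcon
    push Not at hcon
    exact hn ⟨α, v, h, D, hD, h0, hcon⟩
  have h2 : ((∑ i, ((n i : ℤ) + 1) * α i + ∑ i, (v i : ℤ) : ℤ) : ℝ) ≤
    ((Q.ord (om e D Θ.x) : ℤ) : ℝ) := Int.cast_le.2 h1
  rw [Q.ord_one]
  push_cast at h2 ⊢
  linarith

section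

variable {K0 : Type} [Field K0] [Algebra ℂ K0] [Algebra K0 K] [IsScalarTower ℂ K0 K]
  [FiniteDimensional K0 K]

/-- the places of the irreducible polynomials -/
theorem adic_p {X : Fin (d + 1) → K0} (hX : Gens (k := ℂ) X)
    (hXZ : ∀ j, algebraMap K0 K (X j) = Θ.C.Z j) {D : Fin (d + 1) → Derivation ℂ K K}
    (hD : ∀ i j, D i (Θ.C.Z j) = if i = j then 1 else 0) {p : MvPolynomial (Fin (d + 1)) ℂ}
    (hp : Irreducible p) {v : Place ℂ K0} (hvp : v.ord (aeval X p) = 1)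
    (hv : ∀ P, P ≠ 0 → 0 ≤ v.ord (aeval X P) ∧ (v.ord (aeval X P) = 0 ↔ ¬ p ∣ P))
    {P : Place ℂ K} {e1 : ℕ} (h : Over P v e1) (he : e1 = 1 ∨ ∃ t, p ∣ Θ.Bl.F t) {S' : Finset K}
    {m : ℕ} {δ : (Fin r → ℕ) → ℝ} (hδ : ∀ v, δ v ≤ 1)
    {ω : (Fin (d + 1) → Derivation ℂ K K) → K}
    (hω : SecP (d + 1) (VT Θ) (dT Θ δ) S' m ω) :
    ω D * Θ.C.Lam m = 0 ∨ ∃ s ∈ S', s ≠ 0 ∧ P.ord s ≤ P.ord (ω D * Θ.C.Lam m) := by
  classical
  have htr := trdeg_of_basis Θ.C.hZ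
  have hXK : (fun j => algebraMap K0 K (X j)) = Θ.C.Z := funext hXZ
  have hD' : ∀ i j, D i (algebraMap K0 K (X j)) = if i = j then 1 else 0 := fun i j => by
    rw [hXZ]
    exact hD i j
  obtain ⟨b, hb0, hb⟩ := exists_pderiv hp
  have hDb : D b (algebraMap K0 K (aeval X p)) = algebraMap K0 K (aeval X (pderiv b p)) := by
    rw [← Pool.Agent.TH122.AB.aeval_coe, ← Pool.Agent.TH122.AB.aeval_coe]
    exact der_aeval (hD' b) p
  have hjac := fun (S' : Finset K) (m : ℕ) (ω : (Fin (d + 1) → Derivation ℂ K K) → K)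
      (V : Set (Place ℂ K)) (δ : Place ℂ K → ℝ) (hV : P ∈ V) (hω : SecP (d + 1) V δ S' m ω) =>
    jacP htr Θ.C.fin_all' h (div_adic hX hp hv h) D Θ.C.Z Θ.C.hZ hD
    (fun i z hz => pres_adic hX hp hv h (hD' i) hz) hvp b (by
      rw [hDb, Ne, map_eq_zero]
      exact hX.ne hb0) (by
      rw [hDb, h.2, (hv _ hb0).2.2 hb, mul_zero]) S' m ω V δ hV hω
  by_cases hz : ω D = 0
  · left
    rw [hz, zero_mul]
  have hF : ∀ t, P.ord (aeval Θ.C.Z (Θ.Bl.F t)) = e1 * v.ord (aeval X (Θ.Bl.F t)) := by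
    intro t
    have h1 := h.2 (aeval X (Θ.Bl.F t))
    rw [← h1]
    congr 1
    exact Θ.C.ae_K0 hXZ _
  have hnn : ∀ t, 0 ≤ P.ord (aeval Θ.C.Z (Θ.Bl.F t)) := by
    intro t
    rw [hF]
    exact mul_nonneg (by positivity) (hv _ (Θ.Bl.F_ne t)).1
  have he1 : (1 : ℤ) ≤ e1 := by exact_mod_cast h.1
  have hreg : ∀ b, P.Reg (Θ.C.Z b) := by
    intro b
    right
    have h1 := h.2 (X b)
    rw [hXZ] at h1
    rw [h1]
    have h2 := (hv (MvPolynomial.X b) (X_ne_zero b)).1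
    rw [aeval_X] at h2
    exact mul_nonneg (by positivity) h2
  have hmu := mu_reg Θ hreg
  have hvec := vec_eq hmu
  have hsumv : ∑ i, (((P.ord (aeval (Θ.x i) (Θ.F i))).toNat : ℕ) : ℤ) =
      ∑ t, P.ord (aeval Θ.C.Z (Θ.Bl.F t)) := by
    refine Finset.sum_congr rfl fun i _ => ?_
    have h1 := hnn i
    have h2 : aeval Θ.C.Z (Θ.Bl.F i) = aeval (Θ.x i) (Θ.F i) := Θ.Fx i
    rw [h2] at h1 ⊢
    exact Int.toNat_of_nonneg h1
  by_cases hex : ∃ t, p ∣ Θ.Bl.F t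
  · obtain ⟨t, ht⟩ := hex
    have h3 : 1 ≤ v.ord (aeval X (Θ.Bl.F t)) := by
      have h4 : v.ord (aeval X (Θ.Bl.F t)) ≠ 0 := fun h5 => (hv _ (Θ.Bl.F_ne t)).2.1 h5 ht
      have h5 := (hv _ (Θ.Bl.F_ne t)).1
      omega
    have h2 : P.ord (aeval Θ.C.Z (Θ.Bl.F t)) ≤ ∑ t, P.ord (aeval Θ.C.Z (Θ.Bl.F t)) :=
      Finset.single_le_sum (f := fun t => P.ord (aeval Θ.C.Z (Θ.Bl.F t))) (fun t _ => hnn t)
        (Finset.mem_univ t)
    have key : (e1 : ℤ) ≤ ∑ t, P.ord (aeval Θ.C.Z (Θ.Bl.F t)) := by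
      rw [hF] at h2
      nlinarith
    -- `P` is a log place
    have hlg : LgT Θ P := by
      by_contra hn
      have h4 := hjac {1} 1 (fun D => om e D Θ.x) {P} _ rfl (om_sec Θ hmu hn)
      rw [om_oneT Θ hD] at h4
      obtain ⟨s, hs, -, hle⟩ := h4.resolve_left one_ne_zero
      rw [Finset.mem_singleton] at hs
      subst hs
      rw [P.ord_one] at hle
      have h5 : ∑ i, ((n i : ℤ) + 1) * (0 : Fin r → ℤ) i = 0 := by simp
      rw [h5, zero_add, hsumv] at hle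
      have h6 : ((e1 : ℤ) : ℝ) ≤ ((∑ t, P.ord (aeval Θ.C.Z (Θ.Bl.F t)) : ℤ) : ℝ) :=
        Int.cast_le.2 key
      push_cast at hle h6
      linarith
    have hv0 : vec Θ P ≠ 0 := by
      rw [hvec]
      intro h0
      have h4 := congrFun h0 t
      have h5 : aeval Θ.C.Z (Θ.Bl.F t) = aeval (Θ.x t) (Θ.F t) := Θ.Fx t
      rw [← h5, hF] at h4
      have h6 : (0 : ℤ) < e1 * v.ord (aeval X (Θ.Bl.F t)) := by nlinarith
      simp only [Pi.zero_apply] at h4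
      omega
    obtain ⟨s, hs, hs0, hle⟩ := (hjac S' m ω _ _ (Or.inr hlg : P ∈ VT Θ) hω).resolve_left hz
    right
    refine ⟨s, hs, hs0, ?_⟩
    rw [P.ord_mul hz (Θ.C.Lam_ne m), Θ.C.ord_Lam]
    have h4 : dT Θ δ P ≤ 1 := by
      unfold dT
      rw [if_neg hv0]
      exact hδ _
    have h5 : (P.ord s : ℝ) ≤ P.ord (ω D) + m * e1 := by
      have h6 : (m : ℝ) * ((e1 : ℝ) - 1 + dT Θ δ P) ≤ m * e1 :=
        mul_le_mul_of_nonneg_left (by linarith) (by positivity)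
      linarith
    have h6 : P.ord s ≤ P.ord (ω D) + m * e1 := by exact_mod_cast h5
    have h7 : (m : ℤ) * (e1 : ℤ) ≤ m * ∑ t, P.ord (aeval Θ.C.Z (Θ.Bl.F t)) :=
      mul_le_mul_of_nonneg_left key (by positivity)
    exact h6.trans (by linarith)
  · have he2 : e1 = 1 := he.resolve_right hex
    push Not at hex
    have hz0 : ∀ t, P.ord (aeval Θ.C.Z (Θ.Bl.F t)) = 0 := by
      intro t
      rw [hF, (hv _ (Θ.Bl.F_ne t)).2.2 (hex t), mul_zero]
    have hv0 : vec Θ P = 0 := by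
      rw [hvec]
      funext t
      have h5 : aeval Θ.C.Z (Θ.Bl.F t) = aeval (Θ.x t) (Θ.F t) := Θ.Fx t
      rw [← h5, hz0]
      rfl
    obtain ⟨s, hs, hs0, hle⟩ := (hjac S' m ω _ _ (Or.inl hv0 : P ∈ VT Θ) hω).resolve_left hz
    right
    refine ⟨s, hs, hs0, ?_⟩
    rw [P.ord_mul hz (Θ.C.Lam_ne m), Θ.C.ord_Lam]
    have h4 : dT Θ δ P = 0 := by
      unfold dT
      rw [if_pos hv0]
    rw [h4, he2] at hle
    have h6 : P.ord s ≤ P.ord (ω D) := by
      have h7 : (P.ord s : ℝ) ≤ P.ord (ω D) := by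
        push_cast at hle
        linarith
      exact_mod_cast h7
    have h7 : ∑ t, P.ord (aeval Θ.C.Z (Θ.Bl.F t)) = 0 := Finset.sum_eq_zero fun t _ => hz0 t
    have h8 : P.ord (ω D) + m * ∑ t, P.ord (aeval Θ.C.Z (Θ.Bl.F t)) = P.ord (ω D) := by
      rw [h7, mul_zero, add_zero]
    exact h6.trans (le_of_eq h8.symm)

/-- the places at infinity -/
theorem inf_p {X : Fin (d + 1) → K0} (hX : Gens (k := ℂ) X)
    (hXZ : ∀ j, algebraMap K0 K (X j) = Θ.C.Z j) {D : Fin (d + 1) → Derivation ℂ K K}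
    (hD : ∀ i j, D i (Θ.C.Z j) = if i = j then 1 else 0) (t : Fin r) :
    ∃ v0 : Place ℂ K0, (∀ P : MvPolynomial (Fin (d + 1)) ℂ, P ≠ 0 →
        v0.ord (aeval X P) = - (degB (Finset.univ.filter fun b => Θ.Bl.τ b = t) P : ℤ)) ∧
      ∀ (P : Place ℂ K), Over P v0 1 → ∀ (S' : Finset K) (m : ℕ) (δ : (Fin r → ℕ) → ℝ)
        (ω : (Fin (d + 1) → Derivation ℂ K K) → K), SecP (d + 1) (VT Θ) (dT Θ δ) S' m ω →
        ω D * Θ.C.Lam m = 0 ∨ ∃ s ∈ S', s ≠ 0 ∧ P.ord s ≤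
          P.ord (ω D * Θ.C.Lam m) + ((dF t : ℤ) - n t - 1) * m := by
  classical
  have hXK : (fun j => algebraMap K0 K (X j)) = Θ.C.Z := funext hXZ
  obtain ⟨v0, h1, h2⟩ := exists_infP hX (by rw [hXK]; exact Θ.C.hZ) Θ.C.fin_all' (D := D)
    (fun i j => by rw [hXZ]; exact hD i j) (B := Finset.univ.filter fun b => Θ.Bl.τ b = t)
    (c := Θ.Bl.c t) (Finset.mem_filter.2 ⟨Finset.mem_univ _, Θ.Bl.hc t⟩)
  refine ⟨v0, h1, fun P hP S' m δ ω hω => ?_⟩
  have h4 : ∀ s, P.ord (aeval Θ.C.Z (Θ.Bl.F s)) = if s = t then - (dF t : ℤ) else 0 := by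
    intro s
    have h5 := hP.2 (aeval X (Θ.Bl.F s))
    rw [h1 _ (Θ.Bl.F_ne s), Blk.degB_F] at h5
    have h6 : aeval Θ.C.Z (Θ.Bl.F s) = algebraMap K0 K (aeval X (Θ.Bl.F s)) :=
      Θ.C.ae_K0 hXZ _
    rw [h6, h5]
    have h7 : Θ.Bl.D t = dF t := rfl
    rw [h7]
    split_ifs <;> simp
  -- the multiplicities are zero
  have hordZ : ∀ b, P.ord (Θ.C.Z b) = if Θ.Bl.τ b = t then -1 else 0 := by
    intro b
    have h5 := hP.2 (X b)
    have h6 := h1 (MvPolynomial.X b) (X_ne_zero b)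
    rw [aeval_X] at h6
    rw [hXZ, h6] at h5
    rw [h5]
    have h7 : degB (Finset.univ.filter fun b => Θ.Bl.τ b = t)
        (MvPolynomial.X b : MvPolynomial (Fin (d + 1)) ℂ) = if Θ.Bl.τ b = t then 1 else 0 := by
      unfold degB
      rw [support_X, Finset.sup_singleton]
      by_cases hb : Θ.Bl.τ b = t
      · rw [if_pos hb, Finset.sum_eq_single b]
        · simp
        · intro c _ hc
          rw [Finsupp.single_apply, if_neg (Ne.symm hc)]
        · intro hc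
          exact absurd (by simpa using hb) hc
      · rw [if_neg hb]
        refine Finset.sum_eq_zero fun c hc => ?_
        rw [Finsupp.single_apply, if_neg]
        rintro rfl
        exact hb (Finset.mem_filter.1 hc).2
    rw [h7]
    split_ifs <;> simp
  have hxo : ∀ i l, P.ord (Θ.x i (Fin.succ l)) = if i = t then -1 else 0 := by
    intro i l
    have h5 := hordZ (e ⟨i, l⟩)
    rw [Θ.hZ] at h5
    have h3 : uu e Θ.x (e ⟨i, l⟩) = Θ.x i l.succ := by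
      change aff Θ.x (e.symm (e ⟨i, l⟩)) = _
      rw [e.symm_apply_apply]
      change Θ.x i l.succ / Θ.x i 0 = _
      rw [Θ.hx0, div_one]
    have h6 : Θ.Bl.τ (e ⟨i, l⟩) = i := by
      change (e.symm (e ⟨i, l⟩)).1 = i
      rw [e.symm_apply_apply]
    rw [h3, h6] at h5
    exact h5
  have hmu : MuT Θ P (fun i => if i = t then -1 else 0) 0 := by
    refine ⟨fun i l => ?_, fun i => ?_, fun i => ?_⟩
    · refine Fin.cases ?_ (fun l => ?_) l
      · rw [Θ.hx0, P.ord_one]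
        split_ifs <;> simp
      · rw [hxo]
    · exact ⟨Fin.succ ⟨0, Θ.hn i⟩, hxo i _⟩
    · have h5 : aeval Θ.C.Z (Θ.Bl.F i) = aeval (Θ.x i) (Θ.F i) := Θ.Fx i
      rw [← h5, h4]
      by_cases hi : i = t
      · subst hi
        simp
      · simp [hi]
  have hv0 := vec_eq hmu
  have h3 := h2 P 1 hP S' m ω _ _ (Or.inl hv0 : P ∈ VT Θ) hω
  by_cases hz : ω D = 0
  · left
    rw [hz, zero_mul]
  obtain ⟨s, hs, hs0, hle⟩ := h3.resolve_left hz
  right
  refine ⟨s, hs, hs0, ?_⟩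
  have hle' : P.ord s ≤ P.ord (ω D) - m * ((n t : ℤ) + 1) := by
    have h5 : (P.ord s : ℝ) ≤ P.ord (ω D) - m * ((n t : ℝ) + 1) := by
      have h6 : ((Finset.univ.filter fun b => Θ.Bl.τ b = t).card : ℝ) = n t := by
        have h7 : Θ.Bl.n t = n t := hblk_n e Θ.hn Θ.hdF Θ.hh Θ.hF3 t
        exact_mod_cast h7
      have h7 : dT Θ δ P = 0 := by
        unfold dT
        rw [if_pos hv0]
      rw [h6, h7] at hle
      push_cast at hle
      linarith
    exact_mod_cast h5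
  rw [P.ord_mul hz (Θ.C.Lam_ne m), Θ.C.ord_Lam]
  have h5 : ∑ s, P.ord (aeval Θ.C.Z (Θ.Bl.F s)) = - (dF t : ℤ) := by
    rw [Finset.sum_congr rfl fun s _ => h4 s, Finset.sum_ite_eq' Finset.univ t,
      if_pos (Finset.mem_univ _)]
  have h6 : P.ord (ω D) + m * ∑ s, P.ord (aeval Θ.C.Z (Θ.Bl.F s)) =
      P.ord (ω D) - m * dF t := by
    rw [h5]
    ring
  refine hle'.trans (le_of_eq ?_)
  change P.ord (ω D) - m * ((n t : ℤ) + 1) = P.ord (ω D) +
    m * ∑ s, P.ord (aeval Θ.C.Z (Θ.Bl.F s)) + ((dF t : ℤ) - n t - 1) * m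
  rw [h6]
  ring

end

end Pool.Agent.H172.LG
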