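import Pool.Agent.H172.LG.TstP

/-!
The structure of the sections of `m (K + Δ) + j A`.
-/

set_option autoImplicit false
set_option linter.overlappingInstances false
set_option linter.unusedSectionVars false
set_option maxHeartbeats 1000000

open FF MvPolynomial IntermediateField Pool.Agent.W603.LV Pool.Agent.W619.PQ
open Pool.Agent.W619.TW Pool.Agent.W602.GT Pool.Agent.TH122.AB Pool.Agent.TH756.PN
open Pool.Agent.Y169.CH Pool.Agent.H172.EG

namespace Pool.Agent.H172.LG

variable {r R : ℕ} {n : Fin r → ℕ} {K : Type} [Field K] [Algebra ℂ K] {d : ℕ}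
  {e : ((i : Fin r) × Fin (n i)) ≃ Fin (d + 1)} {dF : Fin r → ℕ} {Θ : Nc e dF K R}

/-- the primitive admissible vectors -/
def Prim (M : Fin R → ℕ) (a : Fin R → Fin r → ℕ) (v : Fin r → ℕ) : Prop :=
  Adm M a v ∧ ∀ (k : ℕ) (u : Fin r → ℕ), Adm M a u → (∀ i, v i = k * u i) → k = 1

theorem adm_mu {P : Place ℂ K} {α : Fin r → ℤ} {v : Fin r → ℕ} (h : MuT Θ P α v) (hv : v ≠ 0) :
    Adm Θ.C.M Θ.C.a v := by
  choose j hj using h.h2
  exact Nc.Dt.adm (j := j) ⟨h.h1, hj, h.h3⟩ hv

variable (Θ)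

/-- **The structure of the sections.** -/
theorem sec_memP {ι : Type} [Fintype ι] (T : ι → Θ.C.Dir)
    (hprim : ∀ s, Prim Θ.C.M Θ.C.a (T s).v) (S : Finset K) {δ0 : (Fin r → ℕ) → ℝ}
    (hδ0 : ∀ v, δ0 v ≤ 1)
    {D : Fin (d + 1) → Derivation ℂ K K} (hD : ∀ i j, D i (Θ.C.Z j) = if i = j then 1 else 0) :
    ∃ (δ : ℕ) (β : Fin δ → K) (Q : K) (c : ℕ), Q ≠ 0 ∧
      ∀ (m j : ℕ) (ω : (Fin (d + 1) → Derivation ℂ K K) → K),
      SecP (d + 1) (VT Θ) (dT Θ δ0) (pw S j) m ω →
      ∃ R : Fin δ → MvPolynomial (Fin (d + 1)) ℂ,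
        ω D * Θ.C.Lam m * Q ^ (j + 1) = ∑ i, aeval Θ.C.Y (R i) * β i ∧
        ∀ i, ∀ a ∈ (R i).support,
          (∀ t, (Θ.Bl.wbd a t : ℤ) ≤ ((dF t : ℤ) - n t - 1) * m + c * (j + 1)) ∧
          ∀ s, (m : ℝ) * (1 - δ0 (T s).v) - c * (j + 1) ≤
            ∑ t, ((T s).v t : ℝ) * a (Θ.Bl.c t) := by
  classical
  have hΦ : Smo Θ.Bl := hblk_smo e Θ.hn Θ.hdF Θ.hh Θ.hF3 Θ.hs
  obtain ⟨K', iF, iA, iK, hT, G0, G, fG0, fG, hGG, a1, a2, a3, a4, b1, b2, b3, b4, Y, X, hY, hX,
    hYK, hXZ, hbX⟩ := exists_closure2 Θ.C.hZ Θ.C.bas_Y Θ.C.adj_le Θ.C.fin_Y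
  obtain ⟨DY, hDY0⟩ := exists_dual Θ.C.bas_Y
  have hDY : ∀ i j, DY i (Θ.C.Y j) = if i = j then 1 else 0 := by
    intro i j
    have h1 := congrFun (congrFun hDY0 i) j
    rw [Matrix.of_apply, Matrix.one_apply] at h1
    exact h1
  -- the coordinates in `K'`
  have hXK' : ∀ j, (X j : K') = algebraMap K K' (Θ.C.Z j) := by
    intro j
    rw [← hXZ, ← IsScalarTower.algebraMap_apply (fixedField G) K K']
    rfl
  have hYK' : ∀ j, (Y j : K') = algebraMap K K' (Θ.C.Y j) := by
    intro j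
    rw [← hYK, ← IsScalarTower.algebraMap_apply (fixedField G0) K K']
    rfl
  have hXfun : (fun j => (X j : K')) = fun j => algebraMap K K' (Θ.C.Z j) := funext hXK'
  have hYfun : (fun j => (Y j : K')) = fun j => algebraMap K K' (Θ.C.Y j) := funext hYK'
  have hYX : ∀ b, (Y b : K') = aeval (fun j => (X j : K')) (Θ.Bl.yp b) := by
    intro b
    rw [hYK', hXfun]
    exact (MvPolynomial.aeval_algebraMap_apply K' Θ.C.Z (Θ.Bl.yp b)).symm
  have hint : ∀ b, IsIntegral (Algebra.adjoin ℂ (Set.range fun j => (Y j : K'))) (X b : K') := by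
    intro b
    rw [hXK']
    obtain ⟨p, hp, hp0⟩ := Θ.C.int_Z b
    have hle : ∀ x ∈ Algebra.adjoin ℂ (Set.range Θ.C.Y), algebraMap K K' x ∈
        Algebra.adjoin ℂ (Set.range fun j => (Y j : K')) := by
      intro x hx
      rw [Algebra.adjoin_range_eq_range_aeval] at hx ⊢
      obtain ⟨Q, rfl⟩ := hx
      refine ⟨Q, ?_⟩
      rw [hYfun]
      exact MvPolynomial.aeval_algebraMap_apply K' Θ.C.Y Q
    let φ : Algebra.adjoin ℂ (Set.range Θ.C.Y) →+*
        Algebra.adjoin ℂ (Set.range fun j => (Y j : K')) :=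
      ((algebraMap K K').comp (Algebra.adjoin ℂ (Set.range Θ.C.Y)).subtype).codRestrict
        (Algebra.adjoin ℂ (Set.range fun j => (Y j : K'))) fun x => hle x.1 x.2
    refine ⟨p.map φ, hp.map _, ?_⟩
    rw [Polynomial.eval₂_map]
    have h1 := congrArg (algebraMap K K') hp0
    rw [map_zero, Polynomial.hom_eval₂] at h1
    exact h1
  -- the places at infinity
  choose v0 hv0 hinf using fun t => inf_p Θ hX hXZ hD t
  choose w0 e0 I0 hw0 hI0c hI0 using fun t => exists_inertia G (v0 t)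
  -- the test places
  have hpl : ∀ s : ι, ∃ v : Place ℂ (fixedField G0), ∀ P : MvPolynomial (Fin (d + 1)) ℂ, P ≠ 0 →
      v.ord (aeval Y P) =
        mord (fun b => if b = Θ.Bl.c (Θ.Bl.τ b) then (T s).lam (Θ.Bl.τ b) else 0) P := by
    intro s
    refine exists_mono hY _ ?_
    obtain ⟨a, b, hab⟩ := (T s).hone
    have hpt : ∀ a : Fin r → ℕ, wt (fun b => if b = Θ.Bl.c (Θ.Bl.τ b) then (T s).lam (Θ.Bl.τ b) else 0)
        (Finsupp.equivFunOnFinite.symm fun b => a (Θ.Bl.τ b)) = ∑ t, (T s).lam t * a t := by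
      intro a
      rw [Cvr.wt_piv]
      refine Finset.sum_congr rfl fun t _ => ?_
      rw [Finsupp.coe_equivFunOnFinite_symm, Θ.Bl.hc]
    exact ⟨Finsupp.equivFunOnFinite.symm fun b => a (Θ.Bl.τ b),
      Finsupp.equivFunOnFinite.symm fun c => b (Θ.Bl.τ c), by rw [hpt, hpt, hab]⟩
  choose vs hvs using hpl
  choose ws es Is hws hIsc hIs using fun s => exists_inertia G0 (vs s)
  obtain ⟨δ, bb, β, hβ⟩ := EF.exists_dualb (K := K) G0
  obtain ⟨QQ, hQQ, c1, hC⟩ := two_mem G0 G hGG Θ.Bl hX hbX hY hYX hint hv0 hw0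
    (fun s b => if b = Θ.Bl.c (Θ.Bl.τ b) then (T s).lam (Θ.Bl.τ b) else 0) hvs hws
    (S.image (algebraMap K K')) fun i => algebraMap K K' (bb i)
  have hQX : aeval (fun j => (X j : K')) QQ = algebraMap K K' (aeval Θ.C.Z QQ) := by
    rw [hXfun]
    exact MvPolynomial.aeval_algebraMap_apply K' Θ.C.Z QQ
  -- the constants of `S`
  obtain ⟨c2, hc2, hc2'⟩ : ∃ c2 : ℕ, (∀ t, ∀ g ∈ G0, ∀ s ∈ S, -(c2 : ℤ) ≤
      (w0 t).ord (g (algebraMap K K' s))) ∧
      ∀ t, ∀ g ∈ G0, ∀ s ∈ S, -(c2 : ℤ) ≤ (ws t).ord (g (algebraMap K K' s)) := by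
    have hfin : ((⋃ t, Set.image2 (fun (g : K' ≃ₐ[ℂ] K') (s : K) => (w0 t).ord
        (g (algebraMap K K' s))) (G0 : Set (K' ≃ₐ[ℂ] K')) (S : Set K)) ∪
        (⋃ t, Set.image2 (fun (g : K' ≃ₐ[ℂ] K') (s : K) => (ws t).ord
        (g (algebraMap K K' s))) (G0 : Set (K' ≃ₐ[ℂ] K')) (S : Set K))).Finite :=
      (Set.finite_iUnion fun t => Set.Finite.image2 _ (Set.toFinite _) (Set.toFinite _)).union
        (Set.finite_iUnion fun t => Set.Finite.image2 _ (Set.toFinite _) (Set.toFinite _))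
    obtain ⟨M0, hM0⟩ := hfin.bddBelow
    refine ⟨M0.natAbs, fun t g hg s hs => ?_, fun t g hg s hs => ?_⟩
    · have h1 := hM0 (Or.inl (Set.mem_iUnion.2 ⟨t, Set.mem_image2_of_mem hg hs⟩))
      have h2 : -(M0.natAbs : ℤ) ≤ M0 := by omega
      exact h2.trans h1
    · have h1 := hM0 (Or.inr (Set.mem_iUnion.2 ⟨t, Set.mem_image2_of_mem hg hs⟩))
      have h2 : -(M0.natAbs : ℤ) ≤ M0 := by omega
      exact h2.trans h1
  obtain ⟨NN, hNN⟩ : ∃ NN : ℕ, NN = ∑ s, (T s).N := ⟨_, rfl⟩
  have hNle : ∀ s, (T s).N ≤ NN := by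
    intro s
    rw [hNN]
    exact Finset.single_le_sum (f := fun s => (T s).N) (fun _ _ => Nat.zero_le _)
      (Finset.mem_univ s)
  refine ⟨δ, β, aeval Θ.C.Z QQ, (NN + 1) * (c1 + c2 + 1), Θ.C.ae_ne hQQ, fun m j ω hsec => ?_⟩
  have hcK' : Function.Injective (algebraMap K K') := (algebraMap K K').injective
  -- from `K` to `K'`
  have hS' : ∀ s' ∈ pw S j, algebraMap K K' s' ∈ pw (S.image (algebraMap K K')) j := by
    intro s' hs'
    obtain ⟨s, hs, rfl⟩ := mem_pw.1 hs'
    rw [map_pow]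
    exact mem_pw.2 ⟨_, Finset.mem_image_of_mem _ hs, rfl⟩
  have hRR := hC j (fun t => ((dF t : ℤ) - n t - 1) * m + c2 * j)
    (fun s => ⌈(es s : ℝ) * m * (1 - δ0 (T s).v) / (T s).N⌉ - c2 * j)
    (algebraMap K K' (ω D * Θ.C.Lam m)) ?_ ?_ ?_
  · choose R hR1 hR2 using hRR
    refine ⟨R, ?_, fun i a ha => ?_⟩
    · refine (hβ _ (fun i => aeval Y (R i)) fun i => ?_).trans ?_
      · rw [← hR1 i, hQX]
        congr 1
        simp only [map_mul, map_pow]
        ring
      · refine Finset.sum_congr rfl fun i _ => ?_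
        congr 1
        have h1 := MvPolynomial.aeval_algebraMap_apply K (fun j => Y j) (R i)
        rw [← h1]
        congr 2
        funext j
        exact hYK j
    · have ha1 := (hR2 i a ha).1
      have ha2 := (hR2 i a ha).2
      refine ⟨fun t => (ha1 t).trans ?_, fun s => ?_⟩
      · have h1 : (0 : ℤ) ≤ (c2 : ℤ) := by positivity
        have h2 : (c2 * j + c1 * (j + 1) : ℤ) ≤ ((NN + 1) * (c1 + c2 + 1) : ℕ) * (j + 1) := by
          push_cast
          have h3 : (0 : ℤ) ≤ NN * (c1 + c2 + 1) * (j + 1) := by positivity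
          have h4 : (0 : ℤ) ≤ (c2 + j + 1 : ℤ) := by positivity
          nlinarith
        linarith
      · have h1 := ha2 s
        rw [Cvr.wt_piv] at h1
        have hN0 : (0 : ℤ) < (T s).N := by exact_mod_cast (T s).hN
        have hes : (1 : ℤ) ≤ es s := by exact_mod_cast (hws s).1
        obtain ⟨W, hW⟩ : ∃ W : ℤ, W = ((∑ t, (T s).lam t * a (Θ.Bl.c t) : ℕ) : ℤ) := ⟨_, rfl⟩
        have hsum : ∑ t, ((T s).v t : ℤ) * a (Θ.Bl.c t) = (T s).N * W := by
          rw [hW]
          push_cast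
          rw [Finset.mul_sum]
          refine Finset.sum_congr rfl fun t _ => ?_
          rw [(T s).hv]
          push_cast
          ring
        rw [← hW] at h1
        have hN0' : (0 : ℝ) < (T s).N := by exact_mod_cast (T s).hN
        have hes' : (1 : ℝ) ≤ es s := by exact_mod_cast hes
        have h2 : (es s : ℝ) * m * (1 - δ0 (T s).v) / (T s).N ≤
            es s * W + c2 * j + c1 * (j + 1) := by
          have h3 : ⌈(es s : ℝ) * m * (1 - δ0 (T s).v) / (T s).N⌉ ≤
            es s * W + c2 * j + c1 * (j + 1) := by linarith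
          have h4 := Int.ceil_le.1 h3
          push_cast at h4
          exact h4
        rw [div_le_iff₀ hN0'] at h2
        have h4 : (es s : ℝ) * (m * (1 - δ0 (T s).v) - (T s).N * W) ≤
            (c2 * j + c1 * (j + 1)) * (T s).N := by
          nlinarith
        have h0 : (0 : ℝ) ≤ (c2 * j + c1 * (j + 1)) * (T s).N := by positivity
        have h5 : m * (1 - δ0 (T s).v) - (T s).N * W ≤ (c2 * j + c1 * (j + 1)) * (T s).N := by
          by_cases h6 : m * (1 - δ0 (T s).v) - (T s).N * W ≤ 0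
          · exact h6.trans h0
          · push Not at h6
            nlinarith
        have h6 : ((T s).N : ℝ) ≤ NN := by exact_mod_cast hNle s
        have h7 : (c2 * j + c1 * (j + 1) : ℝ) * (T s).N ≤ (c2 * j + c1 * (j + 1)) * NN :=
          mul_le_mul_of_nonneg_left h6 (by positivity)
        have h8 : (c2 * j + c1 * (j + 1) : ℝ) * NN ≤ ((NN + 1) * (c1 + c2 + 1) : ℕ) * (j + 1) := by
          push_cast
          have h9 : (c2 * j + c1 * (j + 1) : ℝ) ≤ (c1 + c2 + 1) * (j + 1) := by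
            have : (0 : ℝ) ≤ (c2 + j + 1 : ℝ) := by positivity
            nlinarith
          calc (c2 * j + c1 * (j + 1) : ℝ) * NN ≤ ((c1 + c2 + 1) * (j + 1)) * NN :=
                mul_le_mul_of_nonneg_right h9 (by positivity)
            _ ≤ _ := by
              have : (0 : ℝ) ≤ (c1 + c2 + 1) * (j + 1) := by positivity
              nlinarith
        have h10 : (((T s).N * W : ℤ) : ℝ) = ∑ t, ((T s).v t : ℝ) * a (Θ.Bl.c t) := by
          rw [← hsum]
          push_cast
          rfl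
        rw [← h10]
        push_cast
        push_cast at h8
        linarith
  · -- the places of the irreducible polynomials
    intro p hp v hvp hv
    obtain ⟨w, e, I, hwv, hcard, hI⟩ := exists_inertia G v
    refine ⟨w, e, hwv, fun g hg => ?_⟩
    obtain ⟨P, e1, e2, h1, h2, he⟩ := exists_restr (K := K) (over_comp hwv hg)
    have hcase : e2 = 1 ∨ ∃ t, p ∣ Θ.Bl.F t := by
      by_cases hex : ∃ t, p ∣ Θ.Bl.F t
      · exact Or.inr hex
      left
      push Not at hex
      refine Θ.C.ramG hXZ hwv hI hcard hg h1 he fun i => ?_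
      have h3 : ¬ p ∣ Θ.C.pb i := by
        unfold Cvr.pb
        intro h4
        obtain ⟨t, -, ht⟩ := (Prime.dvd_finset_prod_iff hp.prime _).1 h4
        exact hex t (hp.prime.dvd_of_dvd_pow ht)
      rw [(hv _ (Θ.C.pb_ne i)).2.2 h3]
      exact dvd_zero _
    rcases adic_p Θ hX hXZ hD hp hvp hv h2 hcase hδ0 hsec with h3 | ⟨s', hs', hs0, hle⟩
    · left
      rw [h3, map_zero]
    · right
      refine ⟨algebraMap K K' s', hS' s' hs', by simpa using hs0, ?_⟩
      rw [← Place.comp_ord, ← Place.comp_ord, h1.2, h1.2]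
      exact mul_le_mul_of_nonneg_left hle (by positivity)
  · -- the places at infinity
    intro t g hg
    obtain ⟨P, e1, e2, h1, h2, he⟩ := exists_restr (K := K) (over_comp (hw0 t) hg)
    have he2 : e2 = 1 := by
      refine Θ.C.ramG hXZ (hw0 t) (hI0 t) (hI0c t) hg h1 he fun i => ?_
      rw [Cvr.pb, map_prod, ord_prod' (v0 t) Finset.univ _ fun s _ => by
        rw [map_pow]
        exact pow_ne_zero _ (hX.ne (Θ.Bl.F_ne s))]
      refine Finset.dvd_sum fun s _ => ?_
      rw [map_pow, (v0 t).ord_pow, hv0 t _ (Θ.Bl.F_ne s), Θ.Bl.degB_F]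
      split_ifs with hst
      · subst hst
        rw [mul_neg, dvd_neg]
        exact_mod_cast Θ.C.hdiv i s
      · simp
    subst he2
    rcases hinf t P h2 (pw S j) m δ0 ω hsec with h3 | ⟨s', hs', hs0, hle⟩
    · left
      rw [h3, map_zero, map_zero]
    · right
      obtain ⟨s, hs, rfl⟩ := mem_pw.1 hs'
      have h4 := hc2 t g (hGG hg) s hs
      rw [← Place.comp_ord, h1.2] at h4
      rw [← Place.comp_ord, h1.2]
      rw [P.ord_pow] at hle
      have h5 : (e0 t : ℤ) = e1 := by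
        rw [he]
        push_cast
        ring
      rw [h5]
      have h6 : (e1 : ℤ) * (j * P.ord s) ≤ e1 * (P.ord (ω D * Θ.C.Lam m) +
        ((dF t : ℤ) - n t - 1) * m) := mul_le_mul_of_nonneg_left hle (by positivity)
      have h7 : (j : ℤ) * (-(c2 : ℤ)) ≤ j * (e1 * P.ord s) :=
        mul_le_mul_of_nonneg_left h4 (by positivity)
      have h8 : (1 : ℤ) ≤ e1 := by exact_mod_cast h1.1
      have h9 : (0 : ℤ) ≤ c2 * j := by positivity
      have h10 : (c2 : ℤ) * j ≤ e1 * (c2 * j) := by nlinarith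
      nlinarith
  · -- the test places
    intro s g hg
    obtain ⟨P, e1, e2, h1, h2, he⟩ := exists_restr (K := K) (over_comp (hws s) hg)
    obtain ⟨t0, ht0⟩ := Cvr.Dir.ne Θ.C (T s)
    obtain ⟨hdvd, hreg⟩ := Θ.C.ramT hΦ hY hYK hDY (T s).lam (hvs s) (hws s) (hIs s) (hIsc s) hg h1
      h2 he (N := (T s).N) fun i => by
        have := (T s).hT i
        simpa only [(T s).hv] using this
    obtain ⟨hmu, htest⟩ := test_p Θ hY hYK hD hDY (T s).lam ht0 (hvs s) h2 hreg hsec
    have hadm := adm_mu hmu (by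
      intro h0
      have h4 := congrFun h0 t0
      simp only [Pi.zero_apply, Nat.mul_eq_zero] at h4
      rcases h4 with h4 | h4
      · have := h2.1
        omega
      · exact ht0 h4)
    have hN : e2 = (T s).N := by
      obtain ⟨k, hk⟩ := hdvd
      have h3 := (hprim s).2 k _ hadm (fun i => by
        rw [(T s).hv, hk]
        ring)
      rw [hk, h3, mul_one]
    have hv : (fun i => e2 * (T s).lam i) = (T s).v := by
      funext i
      rw [(T s).hv, hN]
    rw [hv] at htest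
    rcases htest with h3 | ⟨s', hs', hs0, hle⟩
    · left
      rw [h3, map_zero, map_zero]
    · right
      obtain ⟨s0, hs, rfl⟩ := mem_pw.1 hs'
      have h4 := hc2' s g hg s0 hs
      rw [← Place.comp_ord, h1.2] at h4
      rw [← Place.comp_ord, h1.2]
      rw [P.ord_pow] at hle
      have hN0 : (0 : ℝ) < (T s).N := by exact_mod_cast (T s).hN
      have he1 : (0 : ℝ) ≤ e1 := by positivity
      have h5 : (e1 : ℝ) * (j * P.ord s0 + m * (1 - δ0 (T s).v)) ≤
          e1 * P.ord (ω D * Θ.C.Lam m) := by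
        refine mul_le_mul_of_nonneg_left ?_ he1
        push_cast at hle
        exact hle
      have h7 : (j : ℝ) * (-(c2 : ℝ)) ≤ j * (e1 * P.ord s0) := by
        refine mul_le_mul_of_nonneg_left ?_ (by positivity)
        exact_mod_cast h4
      have h8 : (es s : ℝ) * m * (1 - δ0 (T s).v) / (T s).N = e1 * (m * (1 - δ0 (T s).v)) := by
        rw [he, hN]
        push_cast
        field_simp
      rw [sub_le_iff_le_add, Int.ceil_le, h8]
      push_cast
      linarith


end Pool.Agent.H172.LG
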