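import Pool.Agent.H172.EG.VerG

/-!
The lattice points of the multiples of the polytope of a pair.
-/

set_option autoImplicit false
set_option linter.overlappingInstances false
set_option linter.unusedSectionVars false
set_option maxHeartbeats 400000

open Pool.Agent.TH152.AC Pool.Agent.Y169.TH Pool.Agent.H172.EF Pool.Agent.H172.EG
open Pool.Agent.Y169.CH (Adm)

namespace Pool.Agent.H172.LG

variable {r : ℕ} {n dF : Fin r → ℕ} {ι : Type} [Fintype ι]

/-- the rows -/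
def rowr (dF : Fin r → ℕ) (ρ : ι → Fin r → ℕ) : Fin r ⊕ ι → Fin r → ℤ :=
  Sum.elim (fun i k => if k = i then -(dF i : ℤ) else 0) fun s k => (ρ s k : ℤ)

/-- the right hand sides -/
def rhsr (n dF : Fin r → ℕ) (δ : ι → ℚ) (q : ℚ) : Fin r ⊕ ι → ℚ :=
  Sum.elim (fun i => -(q * ((dF i : ℚ) - n i - 1))) fun s => q * (1 - δ s)

variable {ρ : ι → Fin r → ℕ} {δ : ι → ℚ}

theorem rowr_inl (i : Fin r) (y : Fin r → ℚ) :
    dotL (fun k => ((rowr dF ρ (Sum.inl i) k : ℤ) : ℚ)) y = -(dF i * y i) := by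
  classical
  rw [dotL_apply, Finset.sum_eq_single i]
  · simp [rowr]
  · intro k _ hk
    simp [rowr, hk]
  · intro h
    exact absurd (Finset.mem_univ _) h

theorem rowr_inr (s : ι) (y : Fin r → ℚ) :
    dotL (fun k => ((rowr dF ρ (Sum.inr s) k : ℤ) : ℚ)) y = ∑ k, (ρ s k : ℚ) * y k := by
  rw [dotL_apply]
  exact Finset.sum_congr rfl fun k _ => by simp [rowr]

/-- the polytope -/
def Pr (n dF : Fin r → ℕ) (ρ : ι → Fin r → ℕ) (δ : ι → ℚ) (q : ℚ) : Set (Fin r → ℚ) :=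
  Pg (fun s k => ((rowr dF ρ s k : ℤ) : ℚ)) (rhsr n dF δ q)

theorem mem_Pr {q : ℚ} {y : Fin r → ℚ} :
    y ∈ Pr n dF ρ δ q ↔ (∀ i, (dF i : ℚ) * y i ≤ q * (dF i - n i - 1)) ∧
      ∀ s, q * (1 - δ s) ≤ ∑ k, (ρ s k : ℚ) * y k := by
  constructor
  · intro h
    refine ⟨fun i => ?_, fun s => ?_⟩
    · have h1 := h (Sum.inl i)
      rw [rowr_inl] at h1
      simp only [rhsr, Sum.elim_inl] at h1
      linarith
    · have h1 := h (Sum.inr s)
      rw [rowr_inr] at h1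
      simpa [rhsr] using h1
  · rintro ⟨h1, h2⟩ (i | s)
    · rw [rowr_inl]
      simp only [rhsr, Sum.elim_inl]
      linarith [h1 i]
    · rw [rowr_inr]
      simpa [rhsr] using h2 s

theorem pr_nonneg (hunit : ∀ i, ∃ s, ρ s i ≠ 0 ∧ ∀ k, k ≠ i → ρ s k = 0) {y : Fin r → ℚ}
    (h : ∀ s, 0 ≤ ∑ k, (ρ s k : ℚ) * y k) (k : Fin r) : 0 ≤ y k := by
  obtain ⟨s, hs, hs2⟩ := hunit k
  have h1 := h s
  rw [Finset.sum_eq_single k] at h1
  · have h5 : (0 : ℚ) < ρ s k := by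
      have : 0 < ρ s k := Nat.pos_of_ne_zero hs
      exact_mod_cast this
    exact nonneg_of_mul_nonneg_right h1 h5
  · intro i _ hi
    rw [hs2 i hi, Nat.cast_zero, zero_mul]
  · intro hk
    exact absurd (Finset.mem_univ _) hk

theorem recr_zero (hunit : ∀ i, ∃ s, ρ s i ≠ 0 ∧ ∀ k, k ≠ i → ρ s k = 0) (hd : ∀ i, 1 ≤ dF i)
    (z : Fin r → ℚ) (hz : ∀ s, 0 ≤ dotL (fun k => ((rowr dF ρ s k : ℤ) : ℚ)) z) : z = 0 := by
  have h1 : ∀ k, 0 ≤ z k := pr_nonneg hunit fun s => by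
    have h2 := hz (Sum.inr s)
    rwa [rowr_inr] at h2
  funext k
  have h2 := hz (Sum.inl k)
  rw [rowr_inl] at h2
  have h3 : (0 : ℚ) < dF k := by exact_mod_cast hd k
  rw [Pi.zero_apply]
  have h4 := h1 k
  by_contra hne
  have h5 : 0 < z k := lt_of_le_of_ne h4 (Ne.symm hne)
  nlinarith [mul_pos h3 h5]

/-- the lattice points -/
def LatR (n dF : Fin r → ℕ) (ρ : ι → Fin r → ℕ) (δ : ι → ℚ) (E : ℕ) (w : Fin r → ℕ) : Prop :=
  (∀ i, E * (n i + 1) + dF i * w i ≤ E * dF i) ∧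
    ∀ s, (E : ℚ) * (1 - δ s) ≤ ∑ i, (ρ s i : ℚ) * w i

/-- **The lattice points compute the minima.** -/
theorem exists_latR {B D q : ℕ} (hunit : ∀ i, ∃ s, ρ s i ≠ 0 ∧ ∀ k, k ≠ i → ρ s k = 0)
    (hd : ∀ k, 1 ≤ dF k) (hB1 : ∀ k, dF k ≤ B) (hB2 : ∀ s k, ρ s k ≤ B)
    (hD : ∀ i, 1 ≤ i → i ≤ r.factorial * B ^ r → i ∣ D) (hδ : ∀ s, δ s ≤ 1)
    (hq : ∀ s, ∃ z : ℤ, (q : ℚ) * δ s = z) (u : Fin r → ℚ) {y : Fin r → ℚ}
    (hy : y ∈ Pr n dF ρ δ 1) :
    ∃ w : Fin r → ℕ, LatR n dF ρ δ (q * D) w ∧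
      dotL u (fun k => (w k : ℚ)) ≤ ((q * D : ℕ) : ℚ) * dotL u y := by
  classical
  have hDq : (0 : ℚ) ≤ D := by positivity
  have hqq : (0 : ℚ) ≤ q := by positivity
  choose zq hzq using hq
  -- the scaled polytope
  let bz : Fin r ⊕ ι → ℤ := Sum.elim (fun i => -((q : ℤ) * ((dF i : ℤ) - n i - 1)))
    fun s => q - zq s
  have hbz : (fun s => ((bz s : ℤ) : ℚ)) = rhsr n dF δ (q : ℚ) := by
    funext s
    rcases s with i | s
    · simp only [bz, rhsr, Sum.elim_inl]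
      push_cast
      ring
    · simp only [bz, rhsr, Sum.elim_inr]
      push_cast
      rw [← hzq s]
      ring
  have hqy : (q : ℚ) • y ∈ Pr n dF ρ δ (q : ℚ) := by
    obtain ⟨h1, h2⟩ := mem_Pr.1 hy
    rw [mem_Pr]
    refine ⟨fun i => ?_, fun s => ?_⟩
    · rw [Pi.smul_apply, smul_eq_mul]
      have h3 := mul_le_mul_of_nonneg_left (h1 i) hqq
      linarith
    · have h3 := mul_le_mul_of_nonneg_left (h2 s) hqq
      rw [one_mul, Finset.mul_sum] at h3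
      refine h3.trans (le_of_eq (Finset.sum_congr rfl fun k _ => ?_))
      rw [Pi.smul_apply, smul_eq_mul]
      ring
  obtain ⟨p, hp, hpu, hact⟩ := exists_vertex_g (recr_zero (dF := dF) hunit hd) u
    (b := rhsr n dF δ (q : ℚ)) hqy
  rw [← hbz] at hact
  obtain ⟨w, hw⟩ := vertex_int_g (B := B) (lz := rowr dF ρ)
    (fun s k => by
      rcases s with i | s
      · simp only [rowr, Sum.elim_inl]
        split_ifs
        · rw [abs_neg, Nat.abs_cast]
          exact_mod_cast hB1 i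
        · rw [abs_zero]
          positivity
      · simp only [rowr, Sum.elim_inr]
        rw [Nat.abs_cast]
        exact_mod_cast hB2 s k) hact hD
  obtain ⟨hp1, hp2⟩ := mem_Pr.1 (show p ∈ Pr n dF ρ δ (q : ℚ) from hp)
  have hp0 : ∀ k, 0 ≤ p k := pr_nonneg hunit fun s =>
    (mul_nonneg hqq (by linarith [hδ s])).trans (hp2 s)
  have hw0 : ∀ k, 0 ≤ w k := by
    intro k
    have h1 := mul_nonneg hDq (hp0 k)
    rw [← hw k] at h1
    exact_mod_cast h1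
  obtain ⟨w', hw'⟩ : ∃ w' : Fin r → ℕ, w' = fun k => (w k).toNat := ⟨_, rfl⟩
  have hww : ∀ k, (w' k : ℚ) = D * p k := by
    intro k
    rw [← hw k, hw']
    have h1 : (((w k).toNat : ℕ) : ℤ) = w k := Int.toNat_of_nonneg (hw0 k)
    exact_mod_cast h1
  refine ⟨w', ⟨fun i => ?_, fun s => ?_⟩, ?_⟩
  · have h1 := mul_le_mul_of_nonneg_left (hp1 i) hDq
    have h2 : ((q * D * (n i + 1) + dF i * w' i : ℕ) : ℚ) ≤ ((q * D * dF i : ℕ) : ℚ) := by
      push_cast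
      rw [hww]
      nlinarith
    exact_mod_cast h2
  · have h1 := mul_le_mul_of_nonneg_left (hp2 s) hDq
    rw [Finset.mul_sum] at h1
    push_cast
    refine le_trans (le_of_eq (by ring)) (h1.trans (le_of_eq (Finset.sum_congr rfl fun k _ => ?_)))
    rw [hww]
    ring
  · have h1 : (fun k => (w' k : ℚ)) = (D : ℚ) • p := by
      funext k
      rw [hww]
      rfl
    rw [h1, map_smul, smul_eq_mul]
    have h2 := mul_le_mul_of_nonneg_left hpu hDq
    rw [map_smul, smul_eq_mul] at h2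
    push_cast
    linarith

/-- the polytope is not empty -/
theorem pr_ne (hd : ∀ i, 1 ≤ dF i)
    (hpos : ∀ s, 1 - δ s ≤ ∑ i, (((dF i : ℚ) - n i - 1) / dF i) * ρ s i) :
    (fun i => ((dF i : ℚ) - n i - 1) / dF i) ∈ Pr n dF ρ δ 1 := by
  rw [mem_Pr]
  refine ⟨fun i => ?_, fun s => ?_⟩
  · have h3 : (dF i : ℚ) ≠ 0 := by
      have := hd i
      positivity
    rw [mul_div_cancel₀ _ h3, one_mul]
  · rw [one_mul]
    refine (hpos s).trans (le_of_eq (Finset.sum_congr rfl fun k _ => ?_))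
    ring

end Pool.Agent.H172.LG
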