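import Pool.Agent.H172.LG.SecP
import Pool.Agent.H172.LG.VerR

/-!
The positive part of the log canonical divisor of a toroidal pair.
-/

set_option autoImplicit false
set_option linter.overlappingInstances false
set_option linter.unusedSectionVars false
set_option maxHeartbeats 1000000

open FF MvPolynomial Pool.Agent.W603.LV Pool.Agent.W602.GT Pool.Agent.W602.Cov
open Pool.Agent.TH756.PR Pool.Agent.TH122.AB Pool.Agent.TH756.PN Pool.Agent.Y169.CH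
open Pool.Agent.TH152.AC
open Pool.Agent.Y169.TH (dotL dotL_apply)
open Pool.Agent.H172.EG

namespace Pool.Agent.H172.LG

variable {r R : ℕ} {n : Fin r → ℕ} {K : Type} [Field K] [Algebra ℂ K] {d : ℕ}
  {e : ((i : Fin r) × Fin (n i)) ≃ Fin (d + 1)} {dF : Fin r → ℕ} (Θ : Nc e dF K R)

theorem secP_pow {N m : ℕ} {V : Set (Place ℂ K)} {δ : Place ℂ K → ℝ}
    {ω : (Fin N → Derivation ℂ K K) → K} (h : SecP N V δ {1} m ω) (j : ℕ) :
    SecP N V δ {1} (j * m) fun D => ω D ^ j := by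
  refine ⟨fun A D => ?_, fun P hP hd D hD => ?_⟩
  · have h1 := h.1 A D
    dsimp only
    rw [h1, mul_pow, ← pow_mul, mul_comm m j]
  · rcases h.2 P hP hd D hD with h1 | ⟨s, hs, -, hle⟩
    · by_cases hj : j = 0
      · right
        refine ⟨1, by simp, one_ne_zero, ?_⟩
        simp [hj]
      · left
        dsimp only
        rw [h1, zero_pow hj]
    · right
      rw [Finset.mem_singleton] at hs
      subst hs
      refine ⟨1, by simp, one_ne_zero, ?_⟩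
      rw [P.ord_pow]
      rw [P.ord_one] at hle ⊢
      have h2 := mul_le_mul_of_nonneg_left hle (show (0 : ℝ) ≤ j by positivity)
      push_cast at h2 ⊢
      linarith

/-- the bound without a constant -/
theorem ord_exactP {N : ℕ} {V : Set (Place ℂ K)} {δ : Place ℂ K → ℝ} {P : Place ℂ K} {D : ℕ}
    {s0 : K} {D0 : Fin N → Derivation ℂ K K} {c : ℕ}
    (h : ∀ (m : ℕ) (ω : (Fin N → Derivation ℂ K K) → K),
      SecP N V δ {1} m ω → ω D0 ≠ 0 → (m : ℤ) * P.ord s0 ≤ D * P.ord (ω D0) + c)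
    {m : ℕ} {ω : (Fin N → Derivation ℂ K K) → K} (hω : SecP N V δ {1} m ω)
    (hω0 : ω D0 ≠ 0) : (m : ℤ) * P.ord s0 ≤ D * P.ord (ω D0) := by
  have h1 := h ((c + 1) * m) (fun Dv => ω Dv ^ (c + 1)) (secP_pow hω (c + 1))
    (pow_ne_zero _ hω0)
  rw [P.ord_pow] at h1
  push_cast at h1
  by_contra hcon
  push Not at hcon
  obtain ⟨t, ht⟩ : ∃ t : ℤ, t = (m : ℤ) * P.ord s0 - D * P.ord (ω D0) := ⟨_, rfl⟩
  have h2 : 1 ≤ t := by omega
  have h3 : ((c : ℤ) + 1) * t ≤ c := by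
    rw [ht]
    linarith
  have h4 : ((c : ℤ) + 1) * 1 ≤ (c + 1) * t := mul_le_mul_of_nonneg_left h2 (by positivity)
  linarith


/-- the order of the factor -/
theorem fac_ordR {E : ℕ} {w : Fin r → ℕ} (hw : ∀ i, E * (n i + 1) + dF i * w i ≤ E * dF i)
    (j : ∀ i, Fin (n i + 1)) (P : Place ℂ K) :
    P.ord (∏ i, (Θ.x i (j i) ^ (E * dF i - (E * (n i + 1) + dF i * w i)) *
      aeval (Θ.x i) (Θ.F i) ^ ((w i : ℤ) - E))) =
    ∑ i, (((E : ℤ) * dF i - (E * (n i + 1) + dF i * w i)) * P.ord (Θ.x i (j i)) +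
      ((w i : ℤ) - E) * P.ord (aeval (Θ.x i) (Θ.F i))) := by
  classical
  rw [ord_prod' P Finset.univ _ fun i _ =>
    mul_ne_zero (pow_ne_zero _ (Θ.x_ne i _)) (zpow_ne_zero _ (Θ.Fx_ne i))]
  refine Finset.sum_congr rfl fun i _ => ?_
  rw [P.ord_mul (pow_ne_zero _ (Θ.x_ne i _)) (zpow_ne_zero _ (Θ.Fx_ne i)), P.ord_pow,
    P.ord_zpow]
  have h1 := hw i
  have h2 : ((E * dF i - (E * (n i + 1) + dF i * w i) : ℕ) : ℤ) =
      (E : ℤ) * dF i - (E * (n i + 1) + dF i * w i) := by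
    rw [Nat.cast_sub h1]
    push_cast
    ring
  rw [h2]

variable {ι : Type} [Fintype ι] {ρ : ι → Fin r → ℕ}

/-- the order of a section -/
theorem sct_ordR {δ : ι → ℚ} {E : ℕ} {w : Fin r → ℕ} (hw : LatR n dF ρ δ E w)
    {D0 : Fin (d + 1) → Derivation ℂ K K} (hom : om e D0 Θ.x = 1)
    {P : Place ℂ K} {α : Fin r → ℤ} {v : Fin r → ℕ} {j : ∀ i, Fin (n i + 1)}
    (h : Θ.Dt P α v j) :
    P.ord (Θ.sct E w j D0) =
      - (E * ∑ i, ((n i : ℤ) + 1) * α i) + ∑ i, (v i : ℤ) * w i - E * ∑ i, (v i : ℤ) := by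
  classical
  unfold Nc.sct
  rw [hom, one_pow, one_mul, fac_ordR Θ hw.1, Finset.mul_sum, Finset.mul_sum,
    ← Finset.sum_neg_distrib, ← Finset.sum_add_distrib, ← Finset.sum_sub_distrib]
  refine Finset.sum_congr rfl fun i _ => ?_
  rw [h.ha2, h.hv]
  ring

/-- the sections are regular -/
theorem sct_secR {δ : (Fin r → ℕ) → ℚ} (hoff : ∀ v, (∀ s, ρ s ≠ v) → δ v = 1)
    {E : ℕ} {w : Fin r → ℕ} (hw : LatR n dF ρ (fun s => δ (ρ s)) E w)
    (j : ∀ i, Fin (n i + 1)) :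
    SecP (d + 1) (VT Θ) (dT Θ fun v => (δ v : ℝ)) {1} E (Θ.sct E w j) := by
  classical
  refine ⟨fun A Dv => ?_, fun P hP _ Dv hDv => ?_⟩
  · unfold Nc.sct
    rw [om_lin, mul_pow]
    ring
  by_cases h0 : Θ.sct E w j Dv = 0
  · exact Or.inl h0
  right
  refine ⟨1, by simp, one_ne_zero, ?_⟩
  obtain ⟨α, v, j', h, -⟩ := Θ.exists_dt P
  have hmu : MuT Θ P α v := ⟨h.ha1, fun i => ⟨j' i, h.ha2 i⟩, h.hv⟩
  have hvec := vec_eq hmu
  have h1 := om_ord e Θ.hn P Dv hDv Θ.x_ne Θ.hbas Θ.hs Θ.hh Θ.Fx_ne α h.ha1 j' h.ha2 v h.hv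
  have h2 := (h1.pow E).mul (ge_ord P (∏ i, (Θ.x i (j i) ^
    (E * dF i - (E * (n i + 1) + dF i * w i)) * aeval (Θ.x i) (Θ.F i) ^ ((w i : ℤ) - E))))
  have h2' := h2.resolve_left h0
  rw [fac_ordR Θ hw.1] at h2'
  have h3 : - (E * ∑ i, ((n i : ℤ) + 1) * α i) + ∑ i, (v i : ℤ) * w i - E * ∑ i, (v i : ℤ) ≤
      ∑ i, (((E : ℤ) * dF i - (E * (n i + 1) + dF i * w i)) * P.ord (Θ.x i (j i)) +
        ((w i : ℤ) - E) * P.ord (aeval (Θ.x i) (Θ.F i))) := by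
    rw [Finset.mul_sum, Finset.mul_sum, ← Finset.sum_neg_distrib, ← Finset.sum_add_distrib,
      ← Finset.sum_sub_distrib]
    refine Finset.sum_le_sum fun i _ => ?_
    rw [h.hv]
    have h4 := h.ha1 i (j i)
    have h5 : (0 : ℤ) ≤ (E : ℤ) * dF i - (E * (n i + 1) + dF i * w i) := by
      have h6 := hw.1 i
      have h7 : ((E * (n i + 1) + dF i * w i : ℕ) : ℤ) ≤ ((E * dF i : ℕ) : ℤ) := by
        exact_mod_cast h6
      push_cast at h7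
      linarith
    have h6 := mul_le_mul_of_nonneg_left h4 h5
    linarith
  have h4 : ∑ i, (v i : ℤ) * w i - E * (if v = 0 then 0 else 1) ≤ P.ord (Θ.sct E w j Dv) := by
    refine le_trans ?_ h2'
    linarith
  unfold dT
  rw [hvec, P.ord_one]
  by_cases hv : v = 0
  · rw [if_pos hv, mul_zero, Int.cast_zero, sub_zero]
    rw [if_pos hv, hv] at h4
    have h5 : (0 : ℤ) ≤ P.ord (Θ.sct E w j Dv) := by simpa using h4
    exact_mod_cast h5
  · rw [if_neg hv]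
    rw [if_neg hv, mul_one] at h4
    have h5 : (E : ℚ) * (1 - δ v) ≤ ((∑ i, (v i : ℤ) * w i : ℤ) : ℚ) := by
      by_cases hs : ∃ s, ρ s = v
      · obtain ⟨s, rfl⟩ := hs
        have h6 := hw.2 s
        push_cast
        exact h6
      · push Not at hs
        rw [hoff v hs, sub_self, mul_zero]
        have : (0 : ℤ) ≤ ∑ i, (v i : ℤ) * w i := Finset.sum_nonneg fun i _ => by positivity
        exact_mod_cast this
    have h6 : ((∑ i, (v i : ℤ) * w i - E : ℤ) : ℚ) ≤ ((P.ord (Θ.sct E w j Dv) : ℤ) : ℚ) :=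
      Int.cast_le.2 h4
    have h7 : -((E : ℚ) * δ v) ≤ ((P.ord (Θ.sct E w j Dv) : ℤ) : ℚ) := by
      push_cast at h5 h6 ⊢
      linarith
    have h8 : ((-((E : ℚ) * δ v) : ℚ) : ℝ) ≤ (((P.ord (Θ.sct E w j Dv) : ℤ) : ℚ) : ℝ) :=
      Rat.cast_le.2 h7
    push_cast at h8 ⊢
    linarith

/-- **The bound for the orders.** -/
theorem ord_boundP (P : Place ℂ K) (S : Finset K) {B D q : ℕ}
    (hρ : ∀ s, Prim Θ.C.M Θ.C.a (ρ s))
    (hunit : ∀ i, ∃ s, ρ s i ≠ 0 ∧ ∀ k, k ≠ i → ρ s k = 0)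
    {δ : (Fin r → ℕ) → ℚ} (hδ : ∀ v, δ v ≤ 1)
    (hB1 : ∀ k, dF k ≤ B) (hB2 : ∀ s k, ρ s k ≤ B)
    (hDd : ∀ i, 1 ≤ i → i ≤ r.factorial * B ^ r → i ∣ D) (hD0 : 0 < D)
    (hq0 : 0 < q) (hq : ∀ s, ∃ z : ℤ, (q : ℚ) * δ (ρ s) = z)
    {D0 : Fin (d + 1) → Derivation ℂ K K} (hD : ∀ i j, D0 i (Θ.C.Z j) = if i = j then 1 else 0)
    {α : Fin r → ℤ} {v : Fin r → ℕ} {j : ∀ i, Fin (n i + 1)} (hα : ∀ i, α i ≤ 0)
    (hdat : Θ.Dt P α v j) {w : Fin r → ℕ}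
    (hw : LatR n dF ρ (fun s => δ (ρ s)) (q * D) w)
    (hmin : ∀ w', LatR n dF ρ (fun s => δ (ρ s)) (q * D) w' →
      ∑ k, v k * w k ≤ ∑ k, v k * w' k) :
    ∃ c : ℕ, ∀ (m : ℕ) (ω : (Fin (d + 1) → Derivation ℂ K K) → K),
      SecP (d + 1) (VT Θ) (dT Θ fun v => (δ v : ℝ)) S m ω →
      ω D0 ≠ 0 → (m : ℤ) * P.ord (Θ.sct (q * D) w j D0) ≤ (q * D : ℕ) * P.ord (ω D0) + c := by
  classical
  obtain ⟨E, hE⟩ : ∃ E, E = q * D := ⟨_, rfl⟩
  have hE0 : 0 < E := by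
    rw [hE]
    exact Nat.mul_pos hq0 hD0
  rw [← hE] at hw hmin ⊢
  have hDq : (0 : ℚ) < E := by exact_mod_cast hE0
  have hom := Θ.om_one hD
  choose T hT using fun s : ι => Θ.C.exists_dir (hρ s).1.1 (hρ s).1.2
  obtain ⟨δ', β, Q, c, hQ, hmem⟩ := sec_memP Θ T (fun s => by rw [hT]; exact hρ s) S
    (δ0 := fun v => (δ v : ℝ)) (fun v => by exact_mod_cast hδ v) hD
  obtain ⟨V, hV⟩ : ∃ V : ℤ, V = ∑ k, (v k : ℤ) * w k := ⟨_, rfl⟩
  -- the linear programming bound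
  obtain ⟨A0, hA0, hlp⟩ := lpg_lower (recr_zero (dF := dF) hunit Θ.hdF)
    (b := rhsr n dF (fun s => δ (ρ s)) 1)
    (u := fun k => (v k : ℚ)) (ρ := (V : ℚ) / E)
    (fun y hy => by
      obtain ⟨w', hw', hle⟩ := exists_latR hunit Θ.hdF hB1 hB2 hDd (fun s => hδ _) hq
        (fun k => (v k : ℚ)) hy
      rw [← hE] at hw' hle
      rw [div_le_iff₀ hDq, mul_comm]
      refine le_trans ?_ hle
      have h1 := hmin w' hw'
      rw [dotL_apply, hV]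
      exact_mod_cast h1)
  -- the constants
  obtain ⟨cβ, hcβ⟩ : ∃ cβ : ℕ, ∀ i, Ge P (-(cβ : ℤ)) (β i) := by
    refine ⟨∑ i, (P.ord (β i)).natAbs, fun i => ?_⟩
    right
    have h1 : (P.ord (β i)).natAbs ≤ ∑ i, (P.ord (β i)).natAbs :=
      Finset.single_le_sum (f := fun i => (P.ord (β i)).natAbs) (fun _ _ => Nat.zero_le _)
        (Finset.mem_univ i)
    omega
  obtain ⟨A1, hA1⟩ := exists_nat_ge ((E : ℚ) * (A0 * (2 * c)))
  obtain ⟨αs, hαs⟩ : ∃ αs : ℤ, αs = ∑ i, α i := ⟨_, rfl⟩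
  have hαs0 : αs ≤ 0 := by
    rw [hαs]
    exact Finset.sum_nonpos fun i _ => hα i
  obtain ⟨c3, hc3⟩ : ∃ c3 : ℕ, c3 = cβ + 2 * (P.ord Q).natAbs + 2 * c * αs.natAbs := ⟨_, rfl⟩
  refine ⟨A1 + E * c3, fun m ω hω hω0 => ?_⟩
  obtain ⟨R0, hR1, hR2⟩ := hmem m 1 ω (by rw [Cvr.pw_one]; exact hω)
  obtain ⟨μ, hμ⟩ : ∃ μ : ℤ, μ = ⌈(V : ℚ) / E * m - A0 * (2 * c)⌉ := ⟨_, rfl⟩
  obtain ⟨X, hX⟩ : ∃ X : ℤ, X = ∑ t, (((dF t : ℤ) - n t - 1) * m + 2 * c) * α t := ⟨_, rfl⟩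
  have hsupp : ∀ i, ∀ a ∈ (R0 i).support, X + μ ≤
      ∑ t, (Θ.Bl.wbd a t : ℤ) * α t + ∑ t, (a (Θ.Bl.c t) : ℤ) * v t := by
    intro i a ha
    obtain ⟨h1, h2⟩ := hR2 i a ha
    have h1' : ∀ t, (Θ.Bl.wbd a t : ℤ) ≤ ((dF t : ℤ) - n t - 1) * m + 2 * c := by
      intro t
      refine (h1 t).trans (le_of_eq ?_)
      push_cast
      ring
    refine add_le_add ?_ ?_
    · rw [hX]
      refine Finset.sum_le_sum fun t _ => ?_
      exact mul_le_mul_of_nonpos_right (h1' t) (hα t)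
    · rw [hμ, Int.ceil_le]
      have h3 := hlp (fun t => (a (Θ.Bl.c t) : ℚ)) m (2 * c) (by positivity) (by positivity)
        (fun s => ?_)
      · rw [dotL_apply] at h3
        refine h3.trans (le_of_eq ?_)
        push_cast
        exact Finset.sum_congr rfl fun t _ => by ring
      · rcases s with t | s
        · rw [rowr_inl]
          simp only [rhsr, Sum.elim_inl]
          have h4 : ((dF t * a (Θ.Bl.c t) : ℕ) : ℤ) ≤ ((dF t : ℤ) - n t - 1) * m + 2 * c := by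
            refine le_trans ?_ (h1' t)
            have h5 : Θ.Bl.wbd a t = Θ.Bl.D t * a (Θ.Bl.c t) + _ := Cvr.wbd_c a t
            rw [h5]
            exact_mod_cast Nat.le_add_right _ _
          have h5 : (((dF t * a (Θ.Bl.c t) : ℕ) : ℤ) : ℚ) ≤
            ((((dF t : ℤ) - n t - 1) * m + 2 * c : ℤ) : ℚ) := Int.cast_le.2 h4
          push_cast at h5 ⊢
          linarith
        · rw [rowr_inr]
          simp only [rhsr, Sum.elim_inr]
          have h4 := h2 s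
          rw [hT] at h4
          have h5 : (((m : ℚ) * (1 - δ (ρ s)) - c * (1 + 1) : ℚ) : ℝ) ≤
            ((∑ t, (ρ s t : ℚ) * a (Θ.Bl.c t) : ℚ) : ℝ) := by
            push_cast
            push_cast at h4
            exact h4
          have h6 := Rat.cast_le.1 h5
          linarith
  -- the order of the right hand side
  have hrhs : Ge P (X + μ - cβ) (∑ i, aeval Θ.C.Y (R0 i) * β i) := by
    refine Ge.sum _ _ fun i _ => ?_
    refine ((Θ.ge_poly hdat (hsupp i)).mul (hcβ i)).mono (le_of_eq ?_)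
    ring
  rw [← hR1] at hrhs
  have hlhs := hrhs.resolve_left (mul_ne_zero (mul_ne_zero hω0 (Θ.C.Lam_ne m))
    (pow_ne_zero _ hQ))
  rw [P.ord_mul (mul_ne_zero hω0 (Θ.C.Lam_ne m)) (pow_ne_zero _ hQ),
    P.ord_mul hω0 (Θ.C.Lam_ne m), P.ord_pow, Θ.C.ord_Lam] at hlhs
  have hsumF : ∑ t, P.ord (aeval Θ.C.Z ((hblk e Θ.hn Θ.hdF Θ.hh Θ.hF3).F t)) =
      ∑ t, (dF t : ℤ) * α t + ∑ t, (v t : ℤ) := by
    rw [← Finset.sum_add_distrib]
    exact Finset.sum_congr rfl fun t _ => by rw [Θ.Fx, hdat.hv]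
  rw [hsumF] at hlhs
  have hXe : X = m * ∑ t, (dF t : ℤ) * α t - m * ∑ i, ((n i : ℤ) + 1) * α i + 2 * c * αs := by
    rw [hX, hαs, Finset.mul_sum, Finset.mul_sum, Finset.mul_sum, ← Finset.sum_sub_distrib,
      ← Finset.sum_add_distrib]
    exact Finset.sum_congr rfl fun t _ => by ring
  rw [sct_ordR Θ hw hom hdat, ← hV]
  -- the estimate for `μ`
  have hμ1 : (m : ℤ) * V - A1 ≤ E * μ := by
    have h1 : (V : ℚ) / E * m - A0 * (2 * c) ≤ μ := by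
      rw [hμ]
      exact Int.le_ceil _
    have h2 := mul_le_mul_of_nonneg_left h1 hDq.le
    have h3 : (E : ℚ) * ((V : ℚ) / E * m - A0 * (2 * c)) =
        m * V - E * (A0 * (2 * c)) := by
      field_simp
    rw [h3] at h2
    have h4 : ((m : ℚ) * V - A1) ≤ E * μ := by linarith
    exact_mod_cast h4
  have hQa : -((P.ord Q).natAbs : ℤ) ≤ P.ord Q ∧ P.ord Q ≤ (P.ord Q).natAbs := by omega
  have hαa : ((αs.natAbs : ℕ) : ℤ) = -αs := by omega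
  have hfin : μ - c3 - m * ∑ i, ((n i : ℤ) + 1) * α i - m * ∑ k, (v k : ℤ) ≤ P.ord (ω D0) := by
    rw [hc3]
    push_cast
    have h1 : |αs| = -αs := abs_of_nonpos hαs0
    have h2 : |P.ord Q| = ((P.ord Q).natAbs : ℤ) := Int.abs_eq_natAbs _
    rw [h1, h2]
    push_cast at hlhs
    rw [hXe] at hlhs
    have h3 : (0 : ℤ) ≤ c := by positivity
    nlinarith [hQa.1, hQa.2, mul_nonneg h3 (neg_nonneg.2 hαs0)]
  have hDz : (0 : ℤ) ≤ E := by positivity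
  have h1 := mul_le_mul_of_nonneg_left hfin hDz
  push_cast
  nlinarith

/-- **Pseudo-effective pairs.** -/
theorem psef_wt (S : Finset K) {v : Fin r → ℕ} (hv : Prim Θ.C.M Θ.C.a v)
    {δ0 : (Fin r → ℕ) → ℝ} (hδ0 : ∀ v, δ0 v ≤ 1)
    (hlt : ∑ i, (((dF i : ℝ) - n i - 1) / dF i) * v i < 1 - δ0 v) :
    ∃ M : ℕ, ∀ j, 1 ≤ j → ∀ ω : (Fin (d + 1) → Derivation ℂ K K) → K,
      SecP (d + 1) (VT Θ) (dT Θ δ0) (pw S j) (j * M) ω → ω = 0 := by
  classical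
  obtain ⟨D0, hD00⟩ := exists_dual Θ.C.hZ
  have hD : ∀ i j, D0 i (Θ.C.Z j) = if i = j then 1 else 0 := by
    intro i j
    have h1 := congrFun (congrFun hD00 i) j
    rw [Matrix.of_apply, Matrix.one_apply] at h1
    exact h1
  obtain ⟨T, hT⟩ := Θ.C.exists_dir hv.1.1 hv.1.2
  obtain ⟨δ', β, Q, c, hQ, hmem⟩ := sec_memP Θ (fun _ : Unit => T)
    (fun _ => by rw [hT]; exact hv) S hδ0 hD
  obtain ⟨ε, hε⟩ : ∃ ε : ℝ, ε = 1 - δ0 v - ∑ i, (((dF i : ℝ) - n i - 1) / dF i) * v i := ⟨_, rfl⟩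
  have hε0 : 0 < ε := by
    rw [hε]
    linarith
  obtain ⟨M, hM⟩ := exists_nat_gt ((2 * c * (1 + ∑ i, (v i : ℝ))) / ε)
  rw [div_lt_iff₀ hε0] at hM
  refine ⟨M, fun j hj ω hω => ?_⟩
  have hzero : ω D0 = 0 := by
    by_contra hne
    obtain ⟨R0, hR1, hR2⟩ := hmem (j * M) j ω hω
    have hex : ∃ i, R0 i ≠ 0 := by
      by_contra hcon
      push Not at hcon
      have h1 : ∑ i, aeval Θ.C.Y (R0 i) * β i = 0 :=
        Finset.sum_eq_zero fun i _ => by rw [hcon, map_zero, zero_mul]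
      rw [h1] at hR1
      exact (mul_ne_zero (mul_ne_zero hne (Θ.C.Lam_ne _)) (pow_ne_zero _ hQ)) hR1
    obtain ⟨i, hi⟩ := hex
    obtain ⟨a, ha⟩ := MvPolynomial.support_nonempty.2 hi
    obtain ⟨h1, h2⟩ := hR2 i a ha
    have h3 := h2 ()
    rw [hT] at h3
    have hcj : (0 : ℝ) ≤ c * (j + 1) := by positivity
    have h4 : ∀ t, ((a (Θ.Bl.c t) : ℕ) : ℝ) ≤
        (((dF t : ℝ) - n t - 1) / dF t) * ((j * M : ℕ) : ℝ) + c * (j + 1) := by
      intro t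
      have hd1 : (1 : ℝ) ≤ dF t := by exact_mod_cast Θ.hdF t
      have h5 : ((dF t * a (Θ.Bl.c t) : ℕ) : ℤ) ≤
          ((dF t : ℤ) - n t - 1) * ((j * M : ℕ) : ℤ) + c * (j + 1) := by
        refine le_trans ?_ (h1 t)
        have h5 : Θ.Bl.wbd a t = Θ.Bl.D t * a (Θ.Bl.c t) + _ := Cvr.wbd_c a t
        rw [h5]
        exact_mod_cast Nat.le_add_right _ _
      have h6 : (((dF t * a (Θ.Bl.c t) : ℕ) : ℤ) : ℝ) ≤
        ((((dF t : ℤ) - n t - 1) * ((j * M : ℕ) : ℤ) + c * (j + 1) : ℤ) : ℝ) := Int.cast_le.2 h5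
      push_cast at h6
      have h7 : (a (Θ.Bl.c t) : ℝ) ≤
          (((dF t : ℝ) - n t - 1) * (j * M) + c * (j + 1)) / dF t := by
        rw [le_div_iff₀ (by linarith)]
        linarith
      refine h7.trans ?_
      rw [add_div]
      push_cast
      have h8 : (c * (j + 1) : ℝ) / dF t ≤ c * (j + 1) := div_le_self hcj hd1
      have h9 : ((dF t : ℝ) - n t - 1) * (j * M) / dF t =
          ((dF t : ℝ) - n t - 1) / dF t * (j * M) := by ring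
      rw [h9]
      linarith
    have h5 : ∑ t, (v t : ℝ) * a (Θ.Bl.c t) ≤
        (∑ i, (((dF i : ℝ) - n i - 1) / dF i) * v i) * ((j * M : ℕ) : ℝ) +
          c * (j + 1) * ∑ i, (v i : ℝ) := by
      rw [Finset.sum_mul, Finset.mul_sum, ← Finset.sum_add_distrib]
      refine Finset.sum_le_sum fun t _ => ?_
      have h6 := mul_le_mul_of_nonneg_left (h4 t) (show (0 : ℝ) ≤ v t by positivity)
      linarith
    have h6 : ((j * M : ℕ) : ℝ) * ε ≤ c * (j + 1) * (1 + ∑ i, (v i : ℝ)) := by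
      rw [hε]
      linarith
    have hj1 : (1 : ℝ) ≤ j := by exact_mod_cast hj
    have hs0 : (0 : ℝ) ≤ c * (1 + ∑ i, (v i : ℝ)) := by positivity
    have h7 : (c : ℝ) * (j + 1) * (1 + ∑ i, (v i : ℝ)) ≤ j * (2 * c * (1 + ∑ i, (v i : ℝ))) := by
      nlinarith
    have h8 : (j : ℝ) * (2 * c * (1 + ∑ i, (v i : ℝ))) < j * (M * ε) :=
      mul_lt_mul_of_pos_left hM (by linarith)
    push_cast at h6
    linarith
  funext Dv
  obtain ⟨A, rfl⟩ := EG.exists_mat Θ.C.hZ hD Dv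
  rw [hω.1 A D0, hzero, mul_zero]
  rfl

/-- **The positive part.** -/
theorem topP {B D q : ℕ}
    (hρ : ∀ s, Prim Θ.C.M Θ.C.a (ρ s))
    (hunit : ∀ i, ∃ s, ρ s i ≠ 0 ∧ ∀ k, k ≠ i → ρ s k = 0)
    {δ : (Fin r → ℕ) → ℚ} (hδ : ∀ v, δ v ≤ 1) (hoff : ∀ v, (∀ s, ρ s ≠ v) → δ v = 1)
    (hB1 : ∀ k, dF k ≤ B) (hB2 : ∀ s k, ρ s k ≤ B)
    (hDd : ∀ i, 1 ≤ i → i ≤ r.factorial * B ^ r → i ∣ D) (hD0 : 0 < D)
    (hq0 : 0 < q) (hq : ∀ s, ∃ z : ℤ, (q : ℚ) * δ (ρ s) = z)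
    (hpos : ∀ s, 1 - δ (ρ s) ≤ ∑ i, (((dF i : ℚ) - n i - 1) / dF i) * ρ s i) :
    ∃ (k : ℕ) (s : Fin k → (Fin (d + 1) → Derivation ℂ K K) → K),
      0 < k ∧ (∃ D0, ∀ b, s b D0 ≠ 0) ∧
      (∀ b, SecP (d + 1) (VT Θ) (dT Θ fun v => (δ v : ℝ)) {1} (q * D) (s b)) ∧
      ∀ P : Place ℂ K, ∃ b,
        (∀ (m : ℕ) (ω : (Fin (d + 1) → Derivation ℂ K K) → K), 1 ≤ m →
          SecP (d + 1) (VT Θ) (dT Θ fun v => (δ v : ℝ)) {1} m ω →
          ∀ Dv, ω Dv ≠ 0 → s b Dv ≠ 0 ∧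
            (m : ℤ) * P.ord (s b Dv) ≤ (q * D : ℕ) * P.ord (ω Dv)) ∧
        ∀ S : Finset K, ∃ c : ℕ, ∀ (m : ℕ) (ω : (Fin (d + 1) → Derivation ℂ K K) → K), 1 ≤ m →
          SecP (d + 1) (VT Θ) (dT Θ fun v => (δ v : ℝ)) S m ω →
          ∀ Dv, ω Dv ≠ 0 → s b Dv ≠ 0 ∧
            (m : ℤ) * P.ord (s b Dv) ≤ (q * D : ℕ) * P.ord (ω Dv) + c := by
  classical
  obtain ⟨D0, hD00⟩ := exists_dual Θ.C.hZ
  have hD : ∀ i j, D0 i (Θ.C.Z j) = if i = j then 1 else 0 := by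
    intro i j
    have h1 := congrFun (congrFun hD00 i) j
    rw [Matrix.of_apply, Matrix.one_apply] at h1
    exact h1
  have hom := Θ.om_one hD
  have hoff' : ∀ v, (∀ s, ρ s ≠ v) → δ v = 1 := hoff
  -- the finite set of the lattice points
  let W : Finset (Fin r → ℕ) :=
    (Fintype.piFinset fun i : Fin r => Finset.range (q * D * dF i + 1)).filter
      fun w => LatR n dF ρ (fun s => δ (ρ s)) (q * D) w
  have hW : ∀ w, w ∈ W ↔ LatR n dF ρ (fun s => δ (ρ s)) (q * D) w := by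
    intro w
    simp only [W, Finset.mem_filter, Fintype.mem_piFinset, Finset.mem_range]
    refine ⟨fun h => h.2, fun h => ⟨fun k => Nat.lt_succ_of_le ?_, h⟩⟩
    have h1 := h.1 k
    have h2 := Nat.le_mul_of_pos_left (w k) (Θ.hdF k)
    omega
  obtain ⟨w0, hw0, -⟩ := exists_latR (n := n) hunit Θ.hdF hB1 hB2 hDd (fun s => hδ (ρ s)) hq 0
    (pr_ne (n := n) Θ.hdF hpos)
  let I : Type := W × (∀ i, Fin (n i + 1))
  let ε : Fin (Fintype.card I) ≃ I := (Fintype.equivFin I).symm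
  refine ⟨Fintype.card I, fun b => Θ.sct (q * D) (ε b).1.1 (ε b).2,
    Fintype.card_pos_iff.2 ⟨(⟨w0, (hW _).2 hw0⟩, fun _ => 0)⟩,
    ⟨D0, fun b => Θ.sct_ne hom⟩,
    fun b => sct_secR Θ hoff' ((hW _).1 (ε b).1.2) _, fun P => ?_⟩
  obtain ⟨α, v, j, hdat, hα⟩ := Θ.exists_dt P
  obtain ⟨w, hwW, hmin⟩ := Finset.exists_min_image W (fun w => ∑ k, v k * w k)
    ⟨w0, (hW _).2 hw0⟩
  have hw := (hW _).1 hwW
  have hmin' : ∀ w', LatR n dF ρ (fun s => δ (ρ s)) (q * D) w' →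
      ∑ k, v k * w k ≤ ∑ k, v k * w' k := fun w' hw' => hmin w' ((hW _).2 hw')
  have key := fun S : Finset K => ord_boundP Θ P S hρ hunit hδ hB1 hB2 hDd hD0 hq0 hq hD hα hdat
    hw hmin'
  have hee : ε (ε.symm (⟨w, hwW⟩, j)) = (⟨w, hwW⟩, j) := ε.apply_symm_apply _
  refine ⟨ε.symm (⟨w, hwW⟩, j), fun m ω hm hω Dv hDv => ?_, fun S => ?_⟩
  · simp only [hee]
    obtain ⟨c, hc⟩ := key {1}
    have h1 := frame Θ.C.hZ hD (P := P) hm (sct_secR Θ hoff' hw j).1 hω.1 (Θ.sct_ne hom) (c := 0)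
      (fun h0 => by
        rw [add_zero]
        exact ord_exactP hc hω h0) hDv
    rwa [add_zero] at h1
  · simp only [hee]
    obtain ⟨c, hc⟩ := key S
    refine ⟨c, fun m ω hm hω Dv hDv => ?_⟩
    exact frame Θ.C.hZ hD (P := P) hm (sct_secR Θ hoff' hw j).1 hω.1 (Θ.sct_ne hom)
      (fun h0 => hc m ω hω h0) hDv

end Pool.Agent.H172.LG
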