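import Pool.Agent.H172.LG.PcsP

/-!
The order of the sections of `m (K + Δ) + A` at the test places.
-/

set_option autoImplicit false
set_option linter.overlappingInstances false
set_option linter.unusedSectionVars false
set_option maxHeartbeats 1000000

open FF MvPolynomial IntermediateField Pool.Agent.W603.LV Pool.Agent.W619.PQ
open Pool.Agent.W619.TW Pool.Agent.W602.GT Pool.Agent.TH122.AB Pool.Agent.TH756.PN
open Pool.Agent.TH756.PR Pool.Agent.Y169.CH Pool.Agent.H172.EG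

namespace Pool.Agent.H172.LG

variable {r R : ℕ} {n : Fin r → ℕ} {K : Type} [Field K] [Algebra ℂ K] {d : ℕ}
  {e : ((i : Fin r) × Fin (n i)) ≃ Fin (d + 1)} {dF : Fin r → ℕ} (Θ : Nc e dF K R)

variable {K0 : Type} [Field K0] [Algebra ℂ K0] [Algebra K0 K] [IsScalarTower ℂ K0 K]
  [FiniteDimensional K0 K]

/-- the test places -/
theorem test_p {Y : Fin (d + 1) → K0} (hY : Gens (k := ℂ) Y)
    (hYK : ∀ j, algebraMap K0 K (Y j) = Θ.C.Y j) {D : Fin (d + 1) → Derivation ℂ K K}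
    (hD : ∀ i j, D i (Θ.C.Z j) = if i = j then 1 else 0) {DY : Fin (d + 1) → Derivation ℂ K K}
    (hDY : ∀ i j, DY i (Θ.C.Y j) = if i = j then 1 else 0) (lam : Fin r → ℕ)
    {t0 : Fin r} (ht0 : lam t0 ≠ 0) {v : Place ℂ K0}
    (hv : ∀ P : MvPolynomial (Fin (d + 1)) ℂ, P ≠ 0 → v.ord (aeval Y P) =
      mord (fun b => if b = Θ.Bl.c (Θ.Bl.τ b) then lam (Θ.Bl.τ b) else 0) P)
    {P : Place ℂ K} {e1 : ℕ} (h : Over P v e1) (hreg : ∀ b, P.Reg (Θ.C.Z b)) {S' : Finset K} {m : ℕ}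
    {δ : (Fin r → ℕ) → ℝ}
    {ω : (Fin (d + 1) → Derivation ℂ K K) → K} (hω : SecP (d + 1) (VT Θ) (dT Θ δ) S' m ω) :
    MuT Θ P 0 (fun i => e1 * lam i) ∧
    (ω D * Θ.C.Lam m = 0 ∨ ∃ s ∈ S', s ≠ 0 ∧
      (P.ord s : ℝ) + m * (1 - δ fun i => e1 * lam i) ≤ P.ord (ω D * Θ.C.Lam m)) := by
  classical
  obtain ⟨l, hl⟩ : ∃ l : Fin (d + 1) → ℕ,
    l = fun b => if b = Θ.Bl.c (Θ.Bl.τ b) then lam (Θ.Bl.τ b) else 0 := ⟨_, rfl⟩
  rw [← hl] at hv
  have hlc : ∀ t, l (Θ.Bl.c t) = lam t := by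
    intro t
    rw [hl]
    dsimp only
    rw [Θ.Bl.hc, if_pos rfl]
  have hln : ∀ b, b ≠ Θ.Bl.c (Θ.Bl.τ b) → l b = 0 := by
    intro b hb
    rw [hl]
    exact if_neg hb
  have htr := trdeg_of_basis Θ.C.hZ
  have hdiv : IsDivisorial P (d + 1) :=
    div_mono hY l (b := Θ.Bl.c t0) (by rw [hlc]; exact ht0) hv h
  -- the logarithmic frame
  let dd : Fin (d + 1) → Derivation ℂ K K := fun b =>
    (if l b = 0 then 1 else algebraMap K0 K (Y b)) • DY b
  have hlog : ∀ b z, P.Reg (dd b z / z) := fun b z =>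
    log_mono hY l hv h (fun j => by rw [hYK]; exact hDY b j) z
  have hjac := fun (S' : Finset K) (m : ℕ) (ω : (Fin (d + 1) → Derivation ℂ K K) → K)
      (V : Set (Place ℂ K)) (δ : Place ℂ K → ℝ) (hV : P ∈ V) (hω : SecP (d + 1) V δ S' m ω) =>
    jacLP htr Θ.C.fin_all' hdiv dd hlog S' m ω V δ hV hω
  -- the change of frames
  let J : Matrix (Fin (d + 1)) (Fin (d + 1)) K := Matrix.of fun a b => D a (Θ.C.Y b)
  have hDJ : D = fun a => ∑ b, J a b • DY b := by
    funext a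
    apply der_ext' Θ.C.bas_Y
    intro j
    rw [sum_der, Finset.sum_eq_single j]
    · rw [hDY, if_pos rfl, mul_one]
      rfl
    · intro b _ hb
      rw [hDY, if_neg hb, mul_zero]
    · intro hj
      exact absurd (Finset.mem_univ _) hj
  have h1 : ∀ (m : ℕ) (ω : (Fin (d + 1) → Derivation ℂ K K) → K), IsPluriForm ℂ K (d + 1) m ω →
      ω D = J.det ^ m * ω DY := by
    intro m ω hω
    conv_lhs => rw [hDJ]
    exact hω J DY
  let L : Matrix (Fin (d + 1)) (Fin (d + 1)) K :=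
    Matrix.diagonal fun b => if l b = 0 then 1 else algebraMap K0 K (Y b)
  have h2 : ∀ (m : ℕ) (ω : (Fin (d + 1) → Derivation ℂ K K) → K), IsPluriForm ℂ K (d + 1) m ω →
      ω dd = (∏ b, if l b = 0 then 1 else algebraMap K0 K (Y b)) ^ m * ω DY := by
    intro m ω hω
    have h3 := hω L DY
    rw [Matrix.det_diagonal] at h3
    rw [← h3]
    congr 1
    funext a
    rw [Finset.sum_eq_single a]
    · simp only [L, Matrix.diagonal_apply_eq]
      rfl
    · intro b _ hb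
      simp only [L]
      rw [Matrix.diagonal_apply_ne _ (Ne.symm hb), zero_smul]
    · intro ha
      exact absurd (Finset.mem_univ _) ha
  have hYne : ∀ b, algebraMap K0 K (Y b) ≠ 0 := by
    intro b
    rw [Ne, map_eq_zero]
    intro h0
    have h3 := hY.ne (X_ne_zero (R := ℂ) b)
    rw [aeval_X] at h3
    exact h3 h0
  have hordY : ∀ b, P.ord (algebraMap K0 K (Y b)) = e1 * l b := by
    intro b
    have h3 := hv (MvPolynomial.X b) (X_ne_zero _)
    rw [aeval_X] at h3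
    have h5 : (MvPolynomial.X b : MvPolynomial (Fin (d + 1)) ℂ) =
      monomial (Finsupp.single b 1) 1 := rfl
    rw [h.2, h3, h5, mord_monomial]
    have h6 : Pool.Agent.Y169.CH.wt l (Finsupp.single b 1) = l b := by
      unfold Pool.Agent.Y169.CH.wt
      rw [Finset.sum_eq_single b]
      · simp
      · intro c _ hc
        rw [Finsupp.single_apply, if_neg (Ne.symm hc), mul_zero]
      · intro h
        exact absurd (Finset.mem_univ _) h
    rw [h6]
  -- the products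
  have hprod0 : (∏ b, if l b = 0 then 1 else algebraMap K0 K (Y b)) ≠ 0 := by
    refine Finset.prod_ne_zero_iff.2 fun b _ => ?_
    split_ifs
    · exact one_ne_zero
    · exact hYne b
  have h4F : ∀ t, P.ord (aeval Θ.C.Z (Θ.Bl.F t)) = (e1 : ℤ) * lam t := by
    intro t
    have h5 : aeval Θ.C.Z (Θ.Bl.F t) = Θ.C.Y (Θ.Bl.c t) := (Θ.C.Y_c t).symm
    rw [h5, ← hYK, hordY, hlc]
  have hord1 : P.ord (∏ b, if l b = 0 then 1 else algebraMap K0 K (Y b)) =
      ∑ t, P.ord (aeval Θ.C.Z (Θ.Bl.F t)) := by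
    rw [ord_prod' P Finset.univ _ fun b _ => by
      split_ifs
      · exact one_ne_zero
      · exact hYne b]
    have h3 : ∀ b, P.ord (if l b = 0 then 1 else algebraMap K0 K (Y b)) = (e1 : ℤ) * l b := by
      intro b
      split_ifs with hb
      · rw [P.ord_one, hb]
        simp
      · exact hordY b
    rw [Finset.sum_congr rfl fun b _ => h3 b, Finset.sum_congr rfl fun t _ => h4F t]
    symm
    refine Finset.sum_of_injOn Θ.Bl.c (fun a _ b _ hab => Θ.Bl.c_inj hab) (fun a _ => by simp) ?_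
      fun t _ => by rw [hlc]
    intro b _ hb
    have hbn : b ≠ Θ.Bl.c (Θ.Bl.τ b) := by
      intro hb'
      apply hb
      exact ⟨Θ.Bl.τ b, by simp, hb'.symm⟩
    rw [hln b hbn]
    simp
  have hJ : P.Reg J.det := by
    refine Pool.Agent.W619.PQ.ge_det P _ fun a b => ?_
    simp only [J, Matrix.of_apply]
    unfold Cvr.Y
    rw [Pool.Agent.Y169.CH.chain]
    refine Ge.sum _ _ fun c _ => ?_
    rw [hD]
    refine P.reg_mul (reg_aeval hreg _) ?_
    split_ifs
    · exact P.reg_one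
    · exact P.reg_zero
  -- the multiplicities
  have hmu : MuT Θ P 0 (fun i => e1 * lam i) := by
    have h3 := mu_reg Θ hreg
    have h5 : (fun i => (P.ord (aeval (Θ.x i) (Θ.F i))).toNat) = fun i => e1 * lam i := by
      funext i
      have h6 : aeval Θ.C.Z (Θ.Bl.F i) = aeval (Θ.x i) (Θ.F i) := Θ.Fx i
      rw [← h6, h4F]
      have h7 : ((e1 : ℤ) * lam i) = ((e1 * lam i : ℕ) : ℤ) := by push_cast; rfl
      rw [h7, Int.toNat_natCast]
    rwa [h5] at h3
  refine ⟨hmu, ?_⟩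
  have hvec := vec_eq hmu
  have hsumv : ∑ i, ((e1 * lam i : ℕ) : ℤ) = ∑ t, P.ord (aeval Θ.C.Z (Θ.Bl.F t)) := by
    refine Finset.sum_congr rfl fun i _ => ?_
    rw [h4F]
    push_cast
    rfl
  -- `P` is a log place
  have hlg : LgT Θ P := by
    by_contra hn
    have h4 := hjac {1} 1 (fun D => om e D Θ.x) {P} _ rfl (om_sec Θ hmu hn)
    have hoD := om_oneT Θ hD
    have h5 := h1 1 _ (om_pluri Θ)
    have h6 := h2 1 _ (om_pluri Θ)
    rw [pow_one] at h5 h6
    rw [hoD] at h5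
    have hJ0 : J.det ≠ 0 := by
      intro h0
      rw [h0, zero_mul] at h5
      exact one_ne_zero h5
    have hoY : om e DY Θ.x ≠ 0 := by
      intro h0
      rw [h0, mul_zero] at h5
      exact one_ne_zero h5
    have h7 : P.ord J.det + P.ord (om e DY Θ.x) = 0 := by
      rw [← P.ord_mul hJ0 hoY, ← h5, P.ord_one]
    have h8 : 0 ≤ P.ord J.det := hJ.resolve_left hJ0
    have hdd0 : om e dd Θ.x ≠ 0 := by
      rw [h6]
      exact mul_ne_zero hprod0 hoY
    obtain ⟨s, hs, -, hle⟩ := h4.resolve_left hdd0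
    rw [Finset.mem_singleton] at hs
    subst hs
    rw [P.ord_one, h6, P.ord_mul hprod0 hoY, hord1] at hle
    have h5 : ∑ i, ((n i : ℤ) + 1) * (0 : Fin r → ℤ) i = 0 := by simp
    rw [h5, zero_add, hsumv] at hle
    have h9 : (P.ord (om e DY Θ.x) : ℝ) ≤ 0 := by
      have : P.ord (om e DY Θ.x) ≤ 0 := by linarith
      exact_mod_cast this
    push_cast at hle
    linarith
  have hv0 : vec Θ P ≠ 0 := by
    rw [hvec]
    intro h0
    have h4 := congrFun h0 t0
    simp only [Pi.zero_apply, Nat.mul_eq_zero] at h4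
    rcases h4 with h4 | h4
    · have := h.1
      omega
    · exact ht0 h4
  by_cases hz : ω D = 0
  · left
    rw [hz, zero_mul]
  have h1' := h1 m ω hω.1
  have h2' := h2 m ω hω.1
  have hDY0 : ω DY ≠ 0 := by
    intro h0
    rw [h0, mul_zero] at h1'
    exact hz h1'
  have hJm : J.det ^ m ≠ 0 := by
    intro h0
    rw [h0, zero_mul] at h1'
    exact hz h1'
  have hdd0 : ω dd ≠ 0 := by
    rw [h2']
    exact mul_ne_zero (pow_ne_zero _ hprod0) hDY0
  obtain ⟨s, hs, hs0, hle⟩ := (hjac S' m ω _ _ (Or.inr hlg : P ∈ VT Θ) hω).resolve_left hdd0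
  right
  refine ⟨s, hs, hs0, ?_⟩
  rw [P.ord_mul hz (Θ.C.Lam_ne m), Θ.C.ord_Lam, h1', P.ord_mul hJm hDY0]
  rw [h2', P.ord_mul (pow_ne_zero _ hprod0) hDY0, P.ord_pow, hord1] at hle
  have h3 : 0 ≤ P.ord (J.det ^ m) := (reg_pow' P hJ m).resolve_left hJm
  have h4 : dT Θ δ P = δ fun i => e1 * lam i := by
    unfold dT
    rw [if_neg hv0, hvec]
  rw [h4] at hle
  have h5 : (0 : ℝ) ≤ P.ord (J.det ^ m) := by exact_mod_cast h3
  refine hle.trans ?_
  have h6 : ((m * ∑ t, P.ord (aeval Θ.C.Z (Θ.Bl.F t)) + P.ord (ω DY) : ℤ) : ℝ) ≤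
      ((P.ord (J.det ^ m) + P.ord (ω DY) + m * ∑ t, P.ord (aeval Θ.C.Z (Θ.Bl.F t)) : ℤ) : ℝ) := by
    rw [Int.cast_le]
    linarith
  exact h6

end Pool.Agent.H172.LG
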